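import Mathlib

/-!
Auxiliary lemmas for the cyclicity of outer functions in the spaces `D^p_{p-1}`.
-/

set_option linter.style.longLine false
set_option linter.unusedVariables false

open MeasureTheory Complex Set Filter Metric Topology

namespace Pool.Agent.Lib.MP_57350d_an

/-- the weight -/
noncomputable def wt (p : ℝ) (z : ℂ) : ENNReal := ENNReal.ofReal ((1 - ‖z‖) ^ (p - 1))

/-- the weighted area measure on the disc -/
noncomputable def nu (p : ℝ) : Measure ℂ := (volume.restrict (ball 0 1)).withDensity (wt p)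

lemma measurable_wt (p : ℝ) : Measurable (wt p) := by
  unfold wt
  fun_prop

lemma wt_le_one {p : ℝ} (hp : 1 ≤ p) {z : ℂ} (hz : z ∈ ball (0:ℂ) 1) : wt p z ≤ 1 := by
  have h0 : ‖z‖ < 1 := by simpa using hz
  have : (1 - ‖z‖) ^ (p - 1) ≤ 1 := 
    Real.rpow_le_one (by linarith) (by linarith [norm_nonneg z]) (by linarith)
  unfold wt
  simpa using ENNReal.ofReal_le_ofReal this

lemma wt_anti {p : ℝ} (hp : 1 ≤ p) {z w : ℂ} (hz : z ∈ ball (0:ℂ) 1) (hw : ‖w‖ ≤ ‖z‖) :
    wt p z ≤ wt p w := by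
  have h0 : ‖z‖ < 1 := by simpa using hz
  unfold wt
  apply ENNReal.ofReal_le_ofReal
  apply Real.rpow_le_rpow (by linarith) (by linarith) (by linarith)

lemma nu_finite {p : ℝ} (hp : 1 ≤ p) : IsFiniteMeasure (nu p) := by
  refine ⟨?_⟩
  unfold nu
  rw [withDensity_apply _ MeasurableSet.univ, Measure.restrict_univ]
  calc ∫⁻ z in ball (0:ℂ) 1, wt p z ≤ ∫⁻ z in ball (0:ℂ) 1, 1 := by
        apply setLIntegral_mono' measurableSet_ball
        intro z hz; exact wt_le_one hp hz
    _ < ⊤ := by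
        simp only [lintegral_const, MeasurableSet.univ, Measure.restrict_apply, univ_inter, one_mul]
        exact measure_ball_lt_top

lemma lintegral_nu (p : ℝ) (F : ℂ → ENNReal) :
    ∫⁻ z, F z ∂(nu p) = ∫⁻ z in ball (0:ℂ) 1, wt p z * F z := by
  unfold nu
  rw [lintegral_withDensity_eq_lintegral_mul_non_measurable _ (measurable_wt p)]
  · rfl
  · exact Filter.Eventually.of_forall (fun z => ENNReal.ofReal_lt_top)

lemma lintegral_smul_comp (F : ℂ → ENNReal) {s : ℝ} (hs : 0 < s) :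
    ∫⁻ z : ℂ, F (s * z) = ENNReal.ofReal ((s^2)⁻¹) * ∫⁻ z, F z := by
  have h := Measure.map_addHaar_smul (volume : Measure ℂ) hs.ne'
  have hemb : MeasurableEmbedding (fun z : ℂ => s • z) := 
    (Homeomorph.smulOfNeZero s hs.ne').measurableEmbedding
  have h2 : ∫⁻ z : ℂ, F (s • z) = ∫⁻ z, F z ∂(Measure.map (fun z : ℂ => s • z) volume) := by
    rw [hemb.lintegral_map]
  have h3 : ∀ z : ℂ, s • z = s * z := fun z => by simp
  simp only [← h3]
  rw [h2, h, lintegral_smul_measure]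
  simp [abs_of_pos, hs, Complex.finrank_real_complex]

/-- dilation is bounded -/
lemma lintegral_nu_dil {p : ℝ} (hp : 1 ≤ p) (F : ℂ → ENNReal) {s : ℝ} (hs : 0 < s) (hs1 : s ≤ 1) :
    ∫⁻ z, F (s * z) ∂(nu p) ≤ ENNReal.ofReal ((s^2)⁻¹) * ∫⁻ z, F z ∂(nu p) := by
  rw [lintegral_nu, lintegral_nu, ← lintegral_indicator measurableSet_ball, 
    ← lintegral_indicator measurableSet_ball, ← lintegral_smul_comp _ hs]
  apply lintegral_mono
  intro z
  by_cases hz : z ∈ ball (0:ℂ) 1
  · have h0 : ‖z‖ < 1 := by simpa using hz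
    have h1 : ‖(s:ℂ) * z‖ ≤ ‖z‖ := by
      rw [norm_mul, Complex.norm_real, Real.norm_of_nonneg hs.le]
      nlinarith [norm_nonneg z]
    have hz' : (s:ℂ) * z ∈ ball (0:ℂ) 1 := by
      simp only [mem_ball, dist_zero_right]; linarith
    simp only [indicator_of_mem hz, indicator_of_mem hz']
    gcongr
    exact wt_anti hp hz h1
  · simp [indicator_of_notMem hz]

lemma jensen_Ioo {r : ℝ} {p : ℝ} (hp : 1 < p) (u : ℝ → ENNReal)
    (hu : AEMeasurable u (volume.restrict (Ioo r 1))) :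
    (∫⁻ s in Ioo r 1, u s)^p ≤ (ENNReal.ofReal (1-r))^(p-1) * ∫⁻ s in Ioo r 1, (u s)^p := by
  have hpq := Real.HolderConjugate.conjExponent hp
  have h := ENNReal.lintegral_mul_le_Lp_mul_Lq (volume.restrict (Ioo r 1)) hpq hu
    (g := fun _ => 1) aemeasurable_const
  have hp0 : 0 < p := by linarith
  simp only [Pi.mul_apply, mul_one, ENNReal.one_rpow, lintegral_const, MeasurableSet.univ,
    Measure.restrict_apply, univ_inter, Real.volume_Ioo, one_mul] at h
  calc (∫⁻ s in Ioo r 1, u s)^p 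
      ≤ ((∫⁻ s in Ioo r 1, (u s)^p) ^ (1/p) * (ENNReal.ofReal (1-r))^(1/p.conjExponent))^p := by
        gcongr
    _ = (ENNReal.ofReal (1-r))^(p-1) * ∫⁻ s in Ioo r 1, (u s)^p := by
        rw [ENNReal.mul_rpow_of_nonneg _ _ hp0.le, ← ENNReal.rpow_mul, ← ENNReal.rpow_mul]
        rw [one_div_mul_cancel hp0.ne', ENNReal.rpow_one, mul_comm]
        congr 2
        unfold Real.conjExponent
        field_simp

lemma eLpNorm_dil {p : ℝ} (hp : 1 ≤ p) (g : ℂ → ℂ) {s : ℝ} (hs : 1/2 ≤ s) (hs1 : s ≤ 1) :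
    eLpNorm (fun z => g (s * z)) (ENNReal.ofReal p) (nu p) ≤ 
      4 * eLpNorm g (ENNReal.ofReal p) (nu p) := by
  have hp0 : 0 < p := by linarith
  have hP0 : ENNReal.ofReal p ≠ 0 := by simpa using hp0
  rw [eLpNorm_eq_lintegral_rpow_enorm_toReal hP0 ENNReal.ofReal_ne_top,
    eLpNorm_eq_lintegral_rpow_enorm_toReal hP0 ENNReal.ofReal_ne_top,
    ENNReal.toReal_ofReal hp0.le]
  have h1 := lintegral_nu_dil hp (fun w => ‖g w‖ₑ ^ p) (s := s) (by linarith) hs1
  have h2 : ENNReal.ofReal ((s^2)⁻¹) ≤ 4 := by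
    have : (s^2)⁻¹ ≤ 4 := by
      rw [inv_le_comm₀ (by positivity) (by norm_num)]
      nlinarith
    calc ENNReal.ofReal ((s^2)⁻¹) ≤ ENNReal.ofReal 4 := ENNReal.ofReal_le_ofReal this
      _ = 4 := by norm_num
  have h3 : (4:ENNReal) ^ (1/p) ≤ 4 := by
    calc (4:ENNReal) ^ (1/p) ≤ 4 ^ (1:ℝ) := by
          apply ENNReal.rpow_le_rpow_of_exponent_le (by norm_num)
          rw [div_le_one hp0]; exact hp
      _ = 4 := by simp
  calc (∫⁻ z, ‖g (s * z)‖ₑ ^ p ∂(nu p)) ^ (1/p) 
      ≤ (4 * ∫⁻ z, ‖g z‖ₑ ^ p ∂(nu p)) ^ (1/p) := by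
        gcongr
        exact h1.trans (by gcongr)
    _ = 4 ^ (1/p) * (∫⁻ z, ‖g z‖ₑ ^ p ∂(nu p)) ^ (1/p) := by
        rw [ENNReal.mul_rpow_of_nonneg _ _ (by positivity)]
    _ ≤ 4 * (∫⁻ z, ‖g z‖ₑ ^ p ∂(nu p)) ^ (1/p) := by gcongr

lemma ae_mem_ball (p : ℝ) : ∀ᵐ z ∂(nu p), z ∈ ball (0:ℂ) 1 := by
  unfold nu
  apply (withDensity_absolutelyContinuous _ _).ae_le
  exact ae_restrict_mem measurableSet_ball

lemma mul_mem_ball {s : ℝ} (hs : 0 ≤ s) (hs1 : s ≤ 1) {z : ℂ} (hz : z ∈ ball (0:ℂ) 1) : 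
    (s:ℂ) * z ∈ ball (0:ℂ) 1 := by
  have h0 : ‖z‖ < 1 := by simpa using hz
  simp only [mem_ball, dist_zero_right, norm_mul, Complex.norm_real, Real.norm_of_nonneg hs]
  nlinarith [norm_nonneg z]

lemma tendsto_dil {p : ℝ} (hp : 1 ≤ p) {g : ℂ → ℂ} (hgm : Measurable g) 
    (hg : MemLp g (ENNReal.ofReal p) (nu p)) :
    Tendsto (fun s : ℝ => eLpNorm (fun z => g (s * z) - g z) (ENNReal.ofReal p) (nu p)) 
      (𝓝[<] 1) (𝓝 0) := by
  have := nu_finite hp
  have hP1 : 1 ≤ ENNReal.ofReal p := by 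
    rw [← ENNReal.ofReal_one]; exact ENNReal.ofReal_le_ofReal hp
  have hP0 : ENNReal.ofReal p ≠ 0 := by positivity
  rw [ENNReal.tendsto_nhds_zero]
  intro ε hε
  -- choose φ
  have hε6 : ε / 6 ≠ 0 := by
    simp only [ne_eq, ENNReal.div_eq_zero_iff, not_or]
    exact ⟨hε.ne', by norm_num⟩
  obtain ⟨φ, hφc, hφ, hφcont, hφm⟩ := hg.exists_hasCompactSupport_eLpNorm_sub_le 
    ENNReal.ofReal_ne_top hε6
  have hφu : UniformContinuous φ := hφcont.uniformContinuous_of_tendsto_cocompact (x := 0) 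
    hφc.is_zero_at_infty
  -- uniform smallness
  set M := (nu p) univ ^ (1 / (ENNReal.ofReal p).toReal) with hM
  have hMtop : M ≠ ⊤ := by
    rw [hM]; finiteness
  obtain ⟨δ, hδ0, hδ⟩ : ∃ δ : NNReal, 0 < δ ∧ (δ : ENNReal) * M ≤ ε / 6 := by
    rcases eq_or_ne M 0 with h0 | h0
    · exact ⟨1, one_pos, by simp [h0]⟩
    · rcases eq_or_ne ε ⊤ with htop | htop
      · exact ⟨1, one_pos, by simp [htop, ENNReal.top_div]⟩
      · refine ⟨(ε / 6 / M).toNNReal, ?_, ?_⟩
        · apply ENNReal.toNNReal_pos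
          · exact (ENNReal.div_pos hε6 hMtop).ne'
          · finiteness
        · rw [ENNReal.coe_toNNReal (by finiteness)]
          rw [ENNReal.div_mul_cancel h0 hMtop]
  have hev : ∀ᶠ s : ℝ in 𝓝[<] 1, 1/2 ≤ s ∧ s ≤ 1 ∧ ∀ z ∈ ball (0:ℂ) 1, ‖φ (s * z) - φ z‖ ≤ δ := by
    rw [Metric.uniformContinuous_iff] at hφu
    obtain ⟨η, hη, hη'⟩ := hφu δ (by exact_mod_cast hδ0)
    have h1 : ∀ᶠ s : ℝ in 𝓝[<] 1, s ∈ Ioo (max (1/2) (1-η)) 1 := 
      Ioo_mem_nhdsLT (by simp [hη]; norm_num)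
    filter_upwards [h1] with s hs
    have hs1 := hs.1
    have hs2 := hs.2
    rw [max_lt_iff] at hs1
    refine ⟨hs1.1.le, hs2.le, fun z hz => ?_⟩
    have hz' : ‖z‖ < 1 := by simpa using hz
    have := hη' (a := s * z) (b := z) (by
      rw [dist_eq_norm]
      have : (s:ℂ) * z - z = ((s - 1 : ℝ) : ℂ) * z := by push_cast; ring
      rw [this, norm_mul, Complex.norm_real, Real.norm_eq_abs, abs_of_neg (by linarith)]
      nlinarith [norm_nonneg z])
    rw [dist_eq_norm] at this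
    exact this.le
  filter_upwards [hev] with s hs
  obtain ⟨hs1, hs2, hs3⟩ := hs
  have hms : Measurable (fun z : ℂ => (s:ℂ) * z) := by fun_prop
  have e1 : (fun z => g (s * z) - g z) = (fun z => (g - φ) (s * z)) + ((fun z => φ (s*z) - φ z) + 
    (φ - g)) := by
    ext z; simp
  have m1 : AEStronglyMeasurable (fun z : ℂ => (g - φ) (s * z)) (nu p) := 
    ((hgm.sub hφcont.measurable).comp hms).aestronglyMeasurable
  have m2 : AEStronglyMeasurable (fun z : ℂ => φ (s*z) - φ z) (nu p) := 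
    ((hφcont.measurable.comp hms).sub hφcont.measurable).aestronglyMeasurable
  have m3 : AEStronglyMeasurable (φ - g) (nu p) := 
    (hφcont.measurable.sub hgm).aestronglyMeasurable
  have b1 : eLpNorm (fun z : ℂ => (g - φ) (s * z)) (ENNReal.ofReal p) (nu p) ≤ 4 * (ε/6) := 
    (eLpNorm_dil hp (g - φ) hs1 hs2).trans (by gcongr)
  have b3 : eLpNorm (φ - g) (ENNReal.ofReal p) (nu p) ≤ ε/6 := by
    rw [eLpNorm_sub_comm]; exact hφ
  have b2 : eLpNorm (fun z : ℂ => φ (s*z) - φ z) (ENNReal.ofReal p) (nu p) ≤ ε/6 := by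
    have : ∀ᵐ z ∂(nu p), ‖φ (s*z) - φ z‖ ≤ δ := by
      filter_upwards [ae_mem_ball p] with z hz using hs3 z hz
    have h2 := eLpNorm_le_of_ae_bound (p := ENNReal.ofReal p) this
    refine h2.trans ?_
    rw [mul_comm]
    refine le_trans (le_of_eq ?_) hδ
    rw [hM]
    simp
  rw [e1]
  calc eLpNorm ((fun z => (g - φ) (s * z)) + ((fun z => φ (s*z) - φ z) + (φ - g))) 
        (ENNReal.ofReal p) (nu p) 
      ≤ eLpNorm (fun z : ℂ => (g - φ) (s * z)) (ENNReal.ofReal p) (nu p) + 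
        eLpNorm ((fun z : ℂ => φ (s*z) - φ z) + (φ - g)) (ENNReal.ofReal p) (nu p) := 
        eLpNorm_add_le m1 (m2.add m3) hP1
    _ ≤ eLpNorm (fun z : ℂ => (g - φ) (s * z)) (ENNReal.ofReal p) (nu p) + 
        (eLpNorm (fun z : ℂ => φ (s*z) - φ z) (ENNReal.ofReal p) (nu p) + 
          eLpNorm (φ - g) (ENNReal.ofReal p) (nu p)) := by
        gcongr
        exact eLpNorm_add_le m2 m3 hP1
    _ ≤ 4 * (ε/6) + (ε/6 + ε/6) := by gcongr
    _ = ε := by
        have : 4 * (ε/6) + (ε/6 + ε/6) = 6 * (ε/6) := by ring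
        rw [this, ENNReal.mul_div_cancel (by norm_num) (by norm_num)]

/-- FTC along a ray -/
lemma ftc_ray {f : ℂ → ℂ} (hf : DifferentiableOn ℂ f (ball 0 1)) {r : ℝ} (hr : 0 ≤ r) (hr1 : r ≤ 1)
    {z : ℂ} (hz : z ∈ ball (0:ℂ) 1) : 
    f z - f (r * z) = ∫ s in r..1, z * deriv f (s * z) := by
  have hd : ∀ s ∈ Set.uIcc r 1, HasDerivAt (fun s : ℝ => f (s * z)) (z * deriv f (s*z)) s := by
    intro s hs
    rw [uIcc_of_le hr1] at hs
    have hsz := mul_mem_ball (hr.trans hs.1) hs.2 hz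
    have h1 : HasDerivAt f (deriv f (s*z)) (s*z) := 
      (hf.differentiableAt (isOpen_ball.mem_nhds hsz)).hasDerivAt
    have h2 : HasDerivAt (fun s : ℝ => (s:ℂ) * z) z s := by
      have := (Complex.ofRealCLM.hasDerivAt (x := s)).mul_const z
      simpa using this
    have h3 := h1.comp s h2
    rw [mul_comm] at h3
    exact h3
  have hcont : ContinuousOn (fun s : ℝ => z * deriv f (s*z)) (Set.uIcc r 1) := by
    rw [uIcc_of_le hr1]
    apply ContinuousOn.mul continuousOn_const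
    have h4 : ContinuousOn (deriv f) (ball 0 1) := (hf.deriv isOpen_ball).continuousOn
    apply h4.comp (by fun_prop)
    intro s hs
    exact mul_mem_ball (hr.trans hs.1) hs.2 hz
  have := intervalIntegral.integral_eq_sub_of_hasDerivAt hd hcont.intervalIntegrable
  rw [this]
  simp

lemma one_sub_ne {r : ℝ} (hr1 : r < 1) : (1 - (r:ℂ)) ≠ 0 := by
  have : (1 - (r:ℂ)) = ((1 - r : ℝ) : ℂ) := by push_cast; ring
  rw [this]; exact_mod_cast (by linarith : (1 - r) ≠ 0)

lemma diffquot_bound {f : ℂ → ℂ} (hf : DifferentiableOn ℂ f (ball 0 1)) {r : ℝ} (hr : 0 ≤ r) 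
    (hr1 : r < 1) {z : ℂ} (hz : z ∈ ball (0:ℂ) 1) : 
    ‖(f z - f (r * z)) / (1 - r) - z * deriv f z‖ₑ ≤ 
      (ENNReal.ofReal (1 - r))⁻¹ * ∫⁻ s in Ioo r 1, ‖deriv f (s * z) - deriv f z‖ₑ := by
  have h0 : ‖z‖ < 1 := by simpa using hz
  have hr1' : (1 - (r:ℂ)) ≠ 0 := one_sub_ne hr1
  have hcont : ContinuousOn (fun s : ℝ => z * deriv f (s*z)) (Set.uIcc r 1) := by
    rw [uIcc_of_le hr1.le]
    apply ContinuousOn.mul continuousOn_const
    have h4 : ContinuousOn (deriv f) (ball 0 1) := (hf.deriv isOpen_ball).continuousOn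
    apply h4.comp (by fun_prop)
    intro s hs
    exact mul_mem_ball (hr.trans hs.1) hs.2 hz
  have e1 : (f z - f (r * z)) / (1 - r) - z * deriv f z = 
      (1 - (r:ℂ))⁻¹ * ∫ s in r..1, (z * deriv f (s*z) - z * deriv f z) := by
    rw [ftc_ray hf hr hr1.le hz, intervalIntegral.integral_sub hcont.intervalIntegrable 
      intervalIntegrable_const]
    simp only [intervalIntegral.integral_const, real_smul]
    push_cast
    field_simp
  rw [e1, enorm_mul]
  have e2 : ‖(1 - (r:ℂ))⁻¹‖ₑ = (ENNReal.ofReal (1 - r))⁻¹ := by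
    have : (1 - (r:ℂ)) = ((1 - r : ℝ) : ℂ) := by push_cast; ring
    rw [this, ← Complex.ofReal_inv, ← ofReal_norm, Complex.norm_real, 
      Real.norm_of_nonneg (by rw [inv_nonneg]; linarith), ENNReal.ofReal_inv_of_pos (by linarith)]
  rw [e2]
  gcongr
  rw [intervalIntegral.integral_of_le hr1.le]
  refine (enorm_integral_le_lintegral_enorm _).trans ?_
  rw [← restrict_Ioo_eq_restrict_Ioc]
  apply lintegral_mono
  intro s
  dsimp only
  rw [← mul_sub, enorm_mul]
  calc ‖z‖ₑ * ‖deriv f (s * z) - deriv f z‖ₑ ≤ 1 * ‖deriv f (s * z) - deriv f z‖ₑ := by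
        gcongr
        rw [← ofReal_norm]
        exact ENNReal.ofReal_le_one.mpr h0.le
    _ = _ := one_mul _

lemma tendsto_diffquot {p : ℝ} (hp : 1 < p) {f : ℂ → ℂ} (hf : DifferentiableOn ℂ f (ball 0 1)) 
    (hg : MemLp (deriv f) (ENNReal.ofReal p) (nu p)) :
    Tendsto (fun r : ℝ => eLpNorm (fun z => (f z - f (r * z)) / (1 - r) - z * deriv f z) 
      (ENNReal.ofReal p) (nu p)) (𝓝[<] 1) (𝓝 0) := by
  have hfin := nu_finite hp.le
  have hp0 : 0 < p := by linarith
  have hP0 : ENNReal.ofReal p ≠ 0 := by simpa using hp0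
  have hgm : Measurable (deriv f) := measurable_deriv f
  have hdil := tendsto_dil hp.le hgm hg
  rw [ENNReal.tendsto_nhds_zero] at hdil ⊢
  intro ε hε
  have hdil' := hdil ε hε
  obtain ⟨r0, hr0, hr0'⟩ := (mem_nhdsLT_iff_exists_Ioo_subset).mp hdil'
  have hr0m : max r0 (1/2) < 1 := max_lt hr0 (by norm_num)
  filter_upwards [Ioo_mem_nhdsLT hr0m] with r hr
  have hr1 := hr.2
  have hr2 := hr.1
  rw [max_lt_iff] at hr2
  have hr3 : 0 ≤ r := by linarith [hr2.2]
  -- pass to lintegral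
  have key : ∫⁻ z, ‖(f z - f (r * z)) / (1 - r) - z * deriv f z‖ₑ ^ p ∂(nu p) ≤ ε ^ p := by
    have hmeas : Measurable (fun x : ℂ × ℝ => ‖deriv f (x.2 * x.1) - deriv f x.1‖ₑ ^ p) := by
      have h1 : Measurable (fun x : ℂ × ℝ => deriv f (x.2 * x.1)) := by
        apply hgm.comp
        fun_prop
      have h2 : Measurable (fun x : ℂ × ℝ => deriv f (x.1)) := hgm.comp measurable_fst
      exact ((h1.sub h2).enorm).pow_const p
    calc ∫⁻ z, ‖(f z - f (r * z)) / (1 - r) - z * deriv f z‖ₑ ^ p ∂(nu p) 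
        ≤ ∫⁻ z, ((ENNReal.ofReal (1 - r))⁻¹ * ∫⁻ s in Ioo r 1, ‖deriv f (s * z) - deriv f z‖ₑ) ^ p ∂(nu p) := by
          apply lintegral_mono_ae
          filter_upwards [ae_mem_ball p] with z hz
          gcongr
          exact diffquot_bound hf hr3 hr1 hz
      _ ≤ ∫⁻ z, ((ENNReal.ofReal (1 - r))⁻¹ ^ p * ((ENNReal.ofReal (1-r))^(p-1) * ∫⁻ s in Ioo r 1, ‖deriv f (s * z) - deriv f z‖ₑ ^ p)) ∂(nu p) := by
          apply lintegral_mono
          intro z
          dsimp only
          rw [ENNReal.mul_rpow_of_nonneg _ _ hp0.le]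
          gcongr
          apply jensen_Ioo hp
          apply Measurable.aemeasurable
          have h1 : Measurable (fun s : ℝ => deriv f (s * z)) := by
            apply hgm.comp
            fun_prop
          exact (h1.sub measurable_const).enorm
      _ = (ENNReal.ofReal (1 - r))⁻¹ * ∫⁻ z, (∫⁻ s in Ioo r 1, ‖deriv f (s * z) - deriv f z‖ₑ ^ p) ∂(nu p) := by
          simp_rw [← mul_assoc]
          have h0 : ENNReal.ofReal (1-r) ≠ 0 := by simp; linarith
          have e : (ENNReal.ofReal (1 - r))⁻¹ ^ p * (ENNReal.ofReal (1-r))^(p-1) = (ENNReal.ofReal (1 - r))⁻¹ := by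
            rw [ENNReal.inv_rpow, ← ENNReal.rpow_neg, ← ENNReal.rpow_add _ _ h0 ENNReal.ofReal_ne_top]
            have : -p + (p - 1) = -1 := by ring
            rw [this, ENNReal.rpow_neg_one]
          rw [e, lintegral_const_mul' _ _ (by simp; linarith)]
      _ = (ENNReal.ofReal (1 - r))⁻¹ * ∫⁻ s in Ioo r 1, (∫⁻ z, ‖deriv f (s * z) - deriv f z‖ₑ ^ p ∂(nu p)) := by
          congr 1
          rw [lintegral_lintegral_swap]
          exact hmeas.aemeasurable
      _ ≤ (ENNReal.ofReal (1 - r))⁻¹ * ∫⁻ s in Ioo r 1, ε ^ p := by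
          gcongr (ENNReal.ofReal (1 - r))⁻¹ * ?_
          apply setLIntegral_mono' measurableSet_Ioo
          intro s hs
          have hs' : s ∈ Ioo r0 1 := ⟨hr2.1.trans hs.1, hs.2⟩
          have := hr0' hs'
          simp only [mem_ofPred_eq] at this
          rw [eLpNorm_eq_lintegral_rpow_enorm_toReal hP0 ENNReal.ofReal_ne_top, 
            ENNReal.toReal_ofReal hp0.le] at this
          have h2 := ENNReal.rpow_le_rpow this hp0.le
          rwa [← ENNReal.rpow_mul, one_div_mul_cancel hp0.ne', ENNReal.rpow_one] at h2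
      _ = ε ^ p := by
          simp only [lintegral_const, MeasurableSet.univ, Measure.restrict_apply, univ_inter,
            Real.volume_Ioo]
          rw [mul_comm (ε^p), ← mul_assoc, ENNReal.inv_mul_cancel (by simp; linarith) ENNReal.ofReal_ne_top, one_mul]
  rw [eLpNorm_eq_lintegral_rpow_enorm_toReal hP0 ENNReal.ofReal_ne_top, 
    ENNReal.toReal_ofReal hp0.le]
  calc _ ≤ (ε^p)^(1/p) := by gcongr
    _ = ε := by rw [← ENNReal.rpow_mul, mul_one_div_cancel hp0.ne', ENNReal.rpow_one]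

lemma aesm_of_continuousOn {p : ℝ} {u : ℂ → ℂ} (hu : ContinuousOn u (ball 0 1)) : 
    AEStronglyMeasurable u (nu p) := by
  have h1 : AEStronglyMeasurable u (volume.restrict (ball (0:ℂ) 1)) := 
    hu.aestronglyMeasurable measurableSet_ball
  exact h1.mono_ac (withDensity_absolutelyContinuous _ _)

lemma cont_dil {u : ℂ → ℂ} (hu : ContinuousOn u (ball 0 1)) {r : ℝ} (hr : 0 ≤ r) (hr1 : r ≤ 1) :
    ContinuousOn (fun z => u (r * z)) (ball 0 1) := by
  apply hu.comp (by fun_prop)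
  intro z hz
  exact mul_mem_ball hr hr1 hz

lemma tendsto_mul_bdd {p : ℝ} (hp : 1 ≤ p) {F : ℝ → ℂ → ℂ} {g : ℂ → ℂ} 
    (hg : MemLp g (ENNReal.ofReal p) (nu p)) {M : ℝ} 
    (hc : ∀ᶠ r : ℝ in 𝓝[<] 1, ContinuousOn (F r) (ball 0 1))
    (hb : ∀ᶠ r : ℝ in 𝓝[<] 1, ∀ z ∈ ball (0:ℂ) 1, ‖F r z‖ ≤ M)
    (hl : ∀ z ∈ ball (0:ℂ) 1, Tendsto (fun r => F r z) (𝓝[<] 1) (𝓝 0)) :
    Tendsto (fun r : ℝ => eLpNorm (fun z => g z * F r z) (ENNReal.ofReal p) (nu p)) 
      (𝓝[<] 1) (𝓝 0) := by
  have hp0 : 0 < p := by linarith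
  have hP0 : ENNReal.ofReal p ≠ 0 := by simpa using hp0
  simp_rw [eLpNorm_eq_lintegral_rpow_enorm_toReal hP0 ENNReal.ofReal_ne_top,
    ENNReal.toReal_ofReal hp0.le]
  have key : Tendsto (fun r : ℝ => ∫⁻ z, ‖g z * F r z‖ₑ ^ p ∂(nu p)) (𝓝[<] 1) (𝓝 (∫⁻ z, 0 ∂(nu p))) := by
    apply tendsto_lintegral_filter_of_dominated_convergence' 
      (fun z => ENNReal.ofReal M ^ p * ‖g z‖ₑ ^ p)
    · filter_upwards [hc] with r hr
      exact ((hg.1.mul (aesm_of_continuousOn hr)).enorm).pow_const p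
    · filter_upwards [hb] with r hr
      filter_upwards [ae_mem_ball p] with z hz
      rw [enorm_mul, ENNReal.mul_rpow_of_nonneg _ _ hp0.le, mul_comm]
      gcongr
      rw [← ofReal_norm]
      exact ENNReal.ofReal_le_ofReal (hr z hz)
    · rw [lintegral_const_mul' _ _ (by finiteness)]
      have := hg.2
      rw [eLpNorm_eq_lintegral_rpow_enorm_toReal hP0 ENNReal.ofReal_ne_top,
        ENNReal.toReal_ofReal hp0.le] at this
      have h2 : ∫⁻ z, ‖g z‖ₑ ^ p ∂(nu p) ≠ ⊤ := by
        intro h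
        rw [h, ENNReal.top_rpow_of_pos (by positivity)] at this
        exact absurd this (lt_irrefl _)
      finiteness
    · filter_upwards [ae_mem_ball p] with z hz
      have h1 := hl z hz
      have h2 : Tendsto (fun r => g z * F r z) (𝓝[<] 1) (𝓝 (g z * 0)) := h1.const_mul _
      rw [mul_zero] at h2
      have h3 := h2.enorm
      have h4 : Tendsto (fun x : ENNReal => x ^ p) (𝓝 ‖(0:ℂ)‖ₑ) (𝓝 0) := by
        have := (ENNReal.continuous_rpow_const (y := p)).tendsto ‖(0:ℂ)‖ₑ
        simpa [hp0] using this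
      exact h4.comp h3
  have h5 : Tendsto (fun x : ENNReal => x ^ (1/p)) (𝓝 0) (𝓝 0) := by
    have := (ENNReal.continuous_rpow_const (y := 1/p)).tendsto 0
    simpa [hp0] using this
  rw [lintegral_zero] at key
  exact h5.comp key

lemma deriv_bound {h : ℂ → ℂ} (hh : DifferentiableOn ℂ h (ball 0 1)) {M : ℝ} 
    (hM : ∀ z ∈ ball (0:ℂ) 1, ‖h z‖ ≤ M) {w : ℂ} {r : ℝ} (hr1 : r < 1) (hw : ‖w‖ < r) :
    ‖deriv h w‖ ≤ M / (1 - r) := by
  have hsub : closedBall w (1 - r) ⊆ ball 0 1 := by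
    intro x hx
    simp only [mem_closedBall, dist_eq_norm, mem_ball, sub_zero] at hx ⊢
    calc ‖x‖ = ‖(x - w) + w‖ := by ring_nf
      _ ≤ ‖x - w‖ + ‖w‖ := norm_add_le _ _
      _ < 1 := by linarith
  have hd : DiffContOnCl ℂ h (ball w (1 - r)) := by
    apply DifferentiableOn.diffContOnCl
    rw [closure_ball _ (by linarith : (1 - r) ≠ 0)]
    exact hh.mono hsub
  apply norm_deriv_le_of_forall_mem_sphere_norm_le (by linarith) hd
  intro z hz
  exact hM z (hsub (sphere_subset_closedBall hz))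

/-- KEY LEMMA -/
lemma key_tendsto {p : ℝ} (hp : 1 < p) {f h : ℂ → ℂ} (hf : DifferentiableOn ℂ f (ball 0 1)) 
    (hf' : MemLp (deriv f) (ENNReal.ofReal p) (nu p))
    (hh : DifferentiableOn ℂ h (ball 0 1)) {M : ℝ} (hM : ∀ z ∈ ball (0:ℂ) 1, ‖h z‖ ≤ M)
    (hfh : MemLp (deriv (fun z => f z * h z)) (ENNReal.ofReal p) (nu p)) :
    Tendsto (fun r : ℝ => eLpNorm (fun z => deriv (fun w => f w * h (r * w)) z - 
      deriv (fun w => f w * h w) z) (ENNReal.ofReal p) (nu p)) (𝓝[<] 1) (𝓝 0) := by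
  have hfin := nu_finite hp.le
  have hp0 : 0 < p := by linarith
  have hP0 : ENNReal.ofReal p ≠ 0 := by simpa using hp0
  have hP1 : 1 ≤ ENNReal.ofReal p := by 
    rw [← ENNReal.ofReal_one]; exact ENNReal.ofReal_le_ofReal hp.le
  have hM0 : 0 ≤ M := (norm_nonneg _).trans (hM 0 (by simp))
  have cf : ContinuousOn f (ball 0 1) := hf.continuousOn
  have ch : ContinuousOn h (ball 0 1) := hh.continuousOn
  have cdf : ContinuousOn (deriv f) (ball 0 1) := (hf.deriv isOpen_ball).continuousOn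
  have cdh : ContinuousOn (deriv h) (ball 0 1) := (hh.deriv isOpen_ball).continuousOn
  have hder : ∀ z ∈ ball (0:ℂ) 1, deriv (fun w => f w * h w) z = deriv f z * h z + f z * deriv h z := by
    intro z hz
    exact deriv_fun_mul (hf.differentiableAt (isOpen_ball.mem_nhds hz)) 
      (hh.differentiableAt (isOpen_ball.mem_nhds hz))
  have hder2 : ∀ r : ℝ, 0 ≤ r → r ≤ 1 → ∀ z ∈ ball (0:ℂ) 1, deriv (fun w => f w * h (r * w)) z = 
      deriv f z * h (r * z) + f z * (r * deriv h (r * z)) := by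
    intro r hr hr1 z hz
    have h1 : HasDerivAt h (deriv h (r * z)) (r * z) := 
      (hh.differentiableAt (isOpen_ball.mem_nhds (mul_mem_ball hr hr1 hz))).hasDerivAt
    have h2 : HasDerivAt (fun w : ℂ => (r:ℂ) * w) r z := by
      simpa using (hasDerivAt_id z).const_mul (r:ℂ)
    have h3 : HasDerivAt (fun w => h (r * w)) (deriv h (r*z) * r) z := h1.comp z h2
    have h4 := ((hf.differentiableAt (isOpen_ball.mem_nhds hz)).hasDerivAt).mul h3
    rw [show (fun w => f w * h (r * w)) = f * (fun w => h (r * w)) from rfl, h4.deriv]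
    ring
  -- G = f h'
  set G : ℂ → ℂ := (ball (0:ℂ) 1).indicator (fun z => f z * deriv h z) with hG
  have hGm : Measurable G := by
    classical
    have : ContinuousOn (fun z => f z * deriv h z) (ball 0 1) := cf.mul cdh
    rw [hG, ← Set.piecewise_eq_indicator]
    exact (ContinuousOn.measurable_piecewise this continuousOn_const measurableSet_ball)
  have hGL : MemLp G (ENNReal.ofReal p) (nu p) := by
    have e1 : G =ᵐ[nu p] (fun z => deriv (fun w => f w * h w) z - deriv f z * h z) := by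
      filter_upwards [ae_mem_ball p] with z hz
      rw [hG, indicator_of_mem hz, hder z hz]; ring
    rw [memLp_congr_ae e1]
    apply hfh.sub
    apply hf'.of_le_mul (c := M) (hf'.1.mul (aesm_of_continuousOn ch))
    filter_upwards [ae_mem_ball p] with z hz
    rw [Pi.mul_apply, norm_mul, mul_comm]
    gcongr
    exact hM z hz
  have hr01 : ∀ᶠ r : ℝ in 𝓝[<] 1, r ∈ Ioo (0:ℝ) 1 := Ioo_mem_nhdsLT one_pos
  -- four limits
  have L1 : Tendsto (fun r : ℝ => eLpNorm (fun z => deriv f z * (h (r * z) - h z)) 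
      (ENNReal.ofReal p) (nu p)) (𝓝[<] 1) (𝓝 0) := by
    apply tendsto_mul_bdd hp.le hf' (M := M + M)
    · filter_upwards [hr01] with r hr
      exact (cont_dil ch hr.1.le hr.2.le).sub ch
    · filter_upwards [hr01] with r hr z hz
      exact (norm_sub_le _ _).trans (add_le_add (hM _ (mul_mem_ball hr.1.le hr.2.le hz)) (hM z hz))
    · intro z hz
      have h1 : Tendsto (fun r : ℝ => h (r * z)) (𝓝[<] 1) (𝓝 (h z)) := by
        have h2 : ContinuousAt h z := (hh.differentiableAt (isOpen_ball.mem_nhds hz)).continuousAt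
        have h3 : Tendsto (fun r : ℝ => (r:ℂ) * z) (𝓝 1) (𝓝 z) := by
          have : Continuous (fun r : ℝ => (r:ℂ) * z) := by fun_prop
          simpa using this.tendsto 1
        exact h2.tendsto.comp (h3.mono_left nhdsWithin_le_nhds)
      have := h1.sub_const (h z)
      simpa using this
  have L3 : Tendsto (fun r : ℝ => eLpNorm (fun z => (z * deriv f z) * ((1 - r) * (r * deriv h (r * z)))) 
      (ENNReal.ofReal p) (nu p)) (𝓝[<] 1) (𝓝 0) := by
    have hz' : MemLp (fun z => z * deriv f z) (ENNReal.ofReal p) (nu p) := by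
      apply hf'.of_le_mul (c := 1) ((aesm_of_continuousOn continuousOn_id).mul hf'.1)
      filter_upwards [ae_mem_ball p] with z hz
      rw [Pi.mul_apply, norm_mul]
      gcongr
      have : ‖z‖ < 1 := by simpa using hz
      exact this.le
    apply tendsto_mul_bdd hp.le hz' (M := M)
    · filter_upwards [hr01] with r hr
      exact continuousOn_const.mul (continuousOn_const.mul (cont_dil cdh hr.1.le hr.2.le))
    · filter_upwards [hr01] with r hr z hz
      have hz1 : ‖z‖ < 1 := by simpa using hz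
      have h1 : ‖(r:ℂ) * z‖ < r := by
        rw [norm_mul, Complex.norm_real, Real.norm_of_nonneg hr.1.le]
        nlinarith [hr.1]
      have h2 := deriv_bound hh hM hr.2 h1
      have h3 : ‖(1 - (r:ℂ))‖ = 1 - r := by
        have : (1 - (r:ℂ)) = ((1 - r : ℝ) : ℂ) := by push_cast; ring
        rw [this, Complex.norm_real, Real.norm_of_nonneg (by linarith [hr.2])]
      rw [norm_mul, norm_mul, h3, Complex.norm_real, Real.norm_of_nonneg hr.1.le]
      have h4 : 0 < 1 - r := by linarith [hr.2]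
      calc (1 - r) * (r * ‖deriv h (r * z)‖) ≤ (1 - r) * (1 * (M / (1 - r))) := by
            gcongr
            exact hr.2.le
        _ = M := by field_simp
    · intro z hz
      have h1 : Tendsto (fun r : ℝ => deriv h (r * z)) (𝓝[<] 1) (𝓝 (deriv h z)) := by
        have h2 : ContinuousAt (deriv h) z := cdh.continuousAt (isOpen_ball.mem_nhds hz)
        have h3 : Tendsto (fun r : ℝ => (r:ℂ) * z) (𝓝 1) (𝓝 z) := by
          have : Continuous (fun r : ℝ => (r:ℂ) * z) := by fun_prop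
          simpa using this.tendsto 1
        exact h2.tendsto.comp (h3.mono_left nhdsWithin_le_nhds)
      have h4 : Tendsto (fun r : ℝ => (r:ℂ)) (𝓝[<] 1) (𝓝 1) := by
        have : Tendsto (fun r : ℝ => (r:ℂ)) (𝓝 1) (𝓝 ((1:ℝ):ℂ)) := Complex.continuous_ofReal.tendsto 1
        simpa using this.mono_left nhdsWithin_le_nhds
      have h5 : Tendsto (fun r : ℝ => (1 - (r:ℂ))) (𝓝[<] 1) (𝓝 0) := by
        simpa using h4.const_sub 1
      have := h5.mul (h4.mul h1)
      simpa using this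
  have L2 : Tendsto (fun r : ℝ => eLpNorm (fun z => ((f z - f (r * z)) / (1 - r) - z * deriv f z) * ((1 - r) * (r * deriv h (r * z)))) 
      (ENNReal.ofReal p) (nu p)) (𝓝[<] 1) (𝓝 0) := by
    have h0 := tendsto_diffquot hp hf hf'
    have h1 : Tendsto (fun r : ℝ => ENNReal.ofReal M * eLpNorm (fun z => (f z - f (r * z)) / (1 - r) - z * deriv f z) 
      (ENNReal.ofReal p) (nu p)) (𝓝[<] 1) (𝓝 (ENNReal.ofReal M * 0)) := 
      ENNReal.Tendsto.const_mul h0 (Or.inr ENNReal.ofReal_ne_top)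
    rw [mul_zero] at h1
    apply tendsto_of_tendsto_of_tendsto_of_le_of_le' tendsto_const_nhds h1
    · exact Eventually.of_forall (fun _ => bot_le)
    · filter_upwards [hr01] with r hr
      apply eLpNorm_le_mul_eLpNorm_of_ae_le_mul
      filter_upwards [ae_mem_ball p] with z hz
      have hz1 : ‖z‖ < 1 := by simpa using hz
      have h1 : ‖(r:ℂ) * z‖ < r := by
        rw [norm_mul, Complex.norm_real, Real.norm_of_nonneg hr.1.le]
        nlinarith [hr.1]
      have h2 := deriv_bound hh hM hr.2 h1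
      have h3 : ‖(1 - (r:ℂ))‖ = 1 - r := by
        have : (1 - (r:ℂ)) = ((1 - r : ℝ) : ℂ) := by push_cast; ring
        rw [this, Complex.norm_real, Real.norm_of_nonneg (by linarith [hr.2])]
      rw [norm_mul, mul_comm]
      gcongr
      rw [norm_mul, norm_mul, h3, Complex.norm_real, Real.norm_of_nonneg hr.1.le]
      have h4 : 0 < 1 - r := by linarith [hr.2]
      calc (1 - r) * (r * ‖deriv h (r * z)‖) ≤ (1 - r) * (1 * (M / (1 - r))) := by
            gcongr
            exact hr.2.le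
        _ = M := by field_simp
  have L4 : Tendsto (fun r : ℝ => eLpNorm (fun z => G (r * z) - G z) (ENNReal.ofReal p) (nu p)) 
      (𝓝[<] 1) (𝓝 0) := tendsto_dil hp.le hGm hGL
  have L5 : Tendsto (fun r : ℝ => ENNReal.ofReal (1 - r) * eLpNorm G (ENNReal.ofReal p) (nu p)) 
      (𝓝[<] 1) (𝓝 0) := by
    have h1 : Tendsto (fun r : ℝ => ENNReal.ofReal (1 - r)) (𝓝[<] 1) (𝓝 0) := by
      have : Tendsto (fun r : ℝ => ENNReal.ofReal (1 - r)) (𝓝 1) (𝓝 (ENNReal.ofReal (1 - 1))) := by
        apply (ENNReal.continuous_ofReal.comp (by fun_prop : Continuous (fun r : ℝ => 1 - r))).tendsto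
      simpa using this.mono_left nhdsWithin_le_nhds
    have := ENNReal.Tendsto.mul_const h1 (Or.inr hGL.2.ne) (b := eLpNorm G (ENNReal.ofReal p) (nu p))
    simpa using this
  have Lsum := ((L1.add L2).add L3).add (L4.add L5)
  simp only [add_zero] at Lsum
  apply tendsto_of_tendsto_of_tendsto_of_le_of_le' tendsto_const_nhds Lsum
  · exact Eventually.of_forall (fun _ => bot_le)
  filter_upwards [hr01] with r hr
  have hr1' : (1 - (r:ℂ)) ≠ 0 := one_sub_ne hr.2
  -- functions
  set T1 : ℂ → ℂ := fun z => deriv f z * (h (r * z) - h z) with hT1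
  set T2 : ℂ → ℂ := fun z => ((f z - f (r * z)) / (1 - r) - z * deriv f z) * ((1 - r) * (r * deriv h (r * z))) with hT2
  set T3 : ℂ → ℂ := fun z => (z * deriv f z) * ((1 - r) * (r * deriv h (r * z))) with hT3
  set T4 : ℂ → ℂ := fun z => G (r * z) - G z with hT4
  have m1 : AEStronglyMeasurable T1 (nu p) := 
    aesm_of_continuousOn (cdf.mul ((cont_dil ch hr.1.le hr.2.le).sub ch))
  have m2 : AEStronglyMeasurable T2 (nu p) := by
    apply aesm_of_continuousOn
    apply ContinuousOn.mul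
    · apply ContinuousOn.sub
      · exact (cf.sub (cont_dil cf hr.1.le hr.2.le)).div_const _
      · exact continuousOn_id.mul cdf
    · exact continuousOn_const.mul (continuousOn_const.mul (cont_dil cdh hr.1.le hr.2.le))
  have m3 : AEStronglyMeasurable T3 (nu p) := by
    apply aesm_of_continuousOn
    exact (continuousOn_id.mul cdf).mul (continuousOn_const.mul (continuousOn_const.mul (cont_dil cdh hr.1.le hr.2.le)))
  have m4 : AEStronglyMeasurable T4 (nu p) := 
    ((hGm.comp (by fun_prop : Measurable (fun z : ℂ => (r:ℂ) * z))).sub hGm).aestronglyMeasurable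
  have m4' : AEStronglyMeasurable (fun z => (r:ℂ) * T4 z) (nu p) := m4.const_mul _
  have m5 : AEStronglyMeasurable (fun z => ((r:ℂ) - 1) * G z) (nu p) := hGm.aestronglyMeasurable.const_mul _
  have e : (fun z => deriv (fun w => f w * h (r * w)) z - deriv (fun w => f w * h w) z) =ᵐ[nu p] 
      (T1 + T2 + T3) + ((fun z => (r:ℂ) * T4 z) + (fun z => ((r:ℂ) - 1) * G z)) := by
    filter_upwards [ae_mem_ball p] with z hz
    have hz2 := mul_mem_ball hr.1.le hr.2.le hz
    simp only [Pi.add_apply, hT1, hT2, hT3, hT4]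
    rw [hder z hz, hder2 r hr.1.le hr.2.le z hz, hG, indicator_of_mem hz, indicator_of_mem hz2]
    field_simp
    ring
  rw [eLpNorm_congr_ae e]
  have b4 : eLpNorm (fun z => (r:ℂ) * T4 z) (ENNReal.ofReal p) (nu p) ≤ eLpNorm T4 (ENNReal.ofReal p) (nu p) := by
    apply eLpNorm_mono
    intro z
    rw [norm_mul, Complex.norm_real, Real.norm_of_nonneg hr.1.le]
    nlinarith [norm_nonneg (T4 z), hr.2]
  have b5 : eLpNorm (fun z => ((r:ℂ) - 1) * G z) (ENNReal.ofReal p) (nu p) ≤ 
      ENNReal.ofReal (1 - r) * eLpNorm G (ENNReal.ofReal p) (nu p) := by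
    apply eLpNorm_le_mul_eLpNorm_of_ae_le_mul
    apply Eventually.of_forall
    intro z
    rw [norm_mul]
    gcongr
    have : ((r:ℂ) - 1) = ((r - 1 : ℝ) : ℂ) := by push_cast; ring
    rw [this, Complex.norm_real, Real.norm_eq_abs, abs_of_neg (by linarith [hr.2])]
    linarith
  calc _ ≤ eLpNorm (T1 + T2 + T3) (ENNReal.ofReal p) (nu p) + 
        eLpNorm ((fun z => (r:ℂ) * T4 z) + (fun z => ((r:ℂ) - 1) * G z)) (ENNReal.ofReal p) (nu p) := 
        eLpNorm_add_le ((m1.add m2).add m3) (m4'.add m5) hP1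
    _ ≤ (eLpNorm T1 (ENNReal.ofReal p) (nu p) + eLpNorm T2 (ENNReal.ofReal p) (nu p) + 
          eLpNorm T3 (ENNReal.ofReal p) (nu p)) + 
        (eLpNorm T4 (ENNReal.ofReal p) (nu p) + ENNReal.ofReal (1 - r) * eLpNorm G (ENNReal.ofReal p) (nu p)) := by
        gcongr
        · calc _ ≤ eLpNorm (T1 + T2) (ENNReal.ofReal p) (nu p) + eLpNorm T3 (ENNReal.ofReal p) (nu p) := 
                eLpNorm_add_le (m1.add m2) m3 hP1
            _ ≤ _ := by gcongr; exact eLpNorm_add_le m1 m2 hP1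
        · calc _ ≤ _ := eLpNorm_add_le m4' m5 hP1
            _ ≤ _ := by gcongr

/-- truncated power series as polynomials -/
noncomputable def psum (P : FormalMultilinearSeries ℂ ℂ ℂ) (n : ℕ) : Polynomial ℂ := 
  ∑ k ∈ Finset.range n, Polynomial.C (P.coeff k) * Polynomial.X ^ k

lemma psum_eval (P : FormalMultilinearSeries ℂ ℂ ℂ) (n : ℕ) (z : ℂ) : 
    (psum P n).eval z = P.partialSum n z := by
  unfold psum FormalMultilinearSeries.partialSum
  rw [Polynomial.eval_finsetSum]
  apply Finset.sum_congr rfl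
  intro k _
  rw [FormalMultilinearSeries.apply_eq_pow_smul_coeff, Polynomial.eval_mul, Polynomial.eval_C,
    Polynomial.eval_pow, Polynomial.eval_X, smul_eq_mul, mul_comm]

lemma exists_poly {H : ℂ → ℂ} {R : ℝ} (hR : 1 < R) (hH : DifferentiableOn ℂ H (ball 0 R)) {ε : ℝ} 
    (hε : 0 < ε) : ∃ q : Polynomial ℂ, ∀ z ∈ ball (0:ℂ) 1, 
      ‖q.eval z - H z‖ ≤ ε ∧ ‖deriv (fun w => q.eval w - H w) z‖ ≤ ε := by
  -- intermediate radii
  obtain ⟨ρ, hρ1, hρR⟩ := exists_between hR
  obtain ⟨ρ', hρ', hρ'R⟩ := exists_between hρR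
  have hρ0 : 0 < ρ := by linarith
  have hρ'0 : 0 < ρ' := by linarith
  lift ρ' to NNReal using hρ'0.le
  lift ρ to NNReal using hρ0.le
  have hps : HasFPowerSeriesOnBall H (cauchyPowerSeries H 0 ρ') 0 ρ' := by
    apply DifferentiableOn.hasFPowerSeriesOnBall _ (by exact_mod_cast hρ'0)
    exact hH.mono (closedBall_subset_ball hρ'R)
  set P := cauchyPowerSeries H 0 ρ'
  have hu := hps.tendstoUniformlyOn' (r' := ρ) (by exact_mod_cast hρ')
  rw [Metric.tendstoUniformlyOn_iff] at hu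
  set ε' := min ε (ε * (ρ - 1)/2) with hε'
  have hε'0 : 0 < ε' := by
    rw [hε']; apply lt_min hε
    have : 0 < (ρ:ℝ) - 1 := by linarith
    positivity
  obtain ⟨n, hn⟩ := (hu ε' hε'0).exists
  refine ⟨psum P n, fun z hz => ?_⟩
  have hb : ∀ w ∈ ball (0:ℂ) ρ, ‖(psum P n).eval w - H w‖ ≤ ε' := by
    intro w hw
    have := hn w hw
    rw [dist_comm, dist_eq_norm, sub_zero] at this
    rw [psum_eval]
    exact this.le
  have hz1 : ‖z‖ < 1 := by simpa using hz
  constructor
  · exact (hb z (ball_subset_ball hρ1.le hz)).trans (min_le_left _ _)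
  · have hsub : closedBall z ((ρ - 1)/2) ⊆ ball 0 ρ := by
      intro x hx
      simp only [mem_closedBall, dist_eq_norm, mem_ball, sub_zero] at hx ⊢
      calc ‖x‖ = ‖(x - z) + z‖ := by ring_nf
        _ ≤ ‖x - z‖ + ‖z‖ := norm_add_le _ _
        _ < ρ := by linarith
    have hd : DiffContOnCl ℂ (fun w => (psum P n).eval w - H w) (ball z ((ρ - 1)/2)) := by
      apply DifferentiableOn.diffContOnCl
      rw [closure_ball _ (by linarith : ((ρ:ℝ) - 1)/2 ≠ 0)]
      apply DifferentiableOn.sub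
      · exact (psum P n).differentiable.differentiableOn
      · exact hH.mono (hsub.trans (ball_subset_ball hρR.le))
    have := norm_deriv_le_of_forall_mem_sphere_norm_le (C := ε') (by linarith : 0 < ((ρ:ℝ) - 1)/2) hd 
      (fun w hw => hb w (hsub (sphere_subset_closedBall hw)))
    refine this.trans ?_
    have h1 : ε' ≤ ε * (ρ - 1)/2 := min_le_right _ _
    rw [div_le_iff₀ (by linarith)]
    linarith

lemma memLp_f {p : ℝ} (hp : 1 < p) {f : ℂ → ℂ} (hf : DifferentiableOn ℂ f (ball 0 1)) 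
    (hg : MemLp (deriv f) (ENNReal.ofReal p) (nu p)) : MemLp f (ENNReal.ofReal p) (nu p) := by
  have hfin := nu_finite hp.le
  have cf : ContinuousOn f (ball 0 1) := hf.continuousOn
  have cdf : ContinuousOn (deriv f) (ball 0 1) := (hf.deriv isOpen_ball).continuousOn
  have h0 := tendsto_diffquot hp hf hg
  rw [ENNReal.tendsto_nhds_zero] at h0
  have h1 := h0 1 one_pos
  have h2 : ∀ᶠ r : ℝ in 𝓝[<] 1, r ∈ Ioo (1/2:ℝ) 1 := Ioo_mem_nhdsLT (by norm_num)
  obtain ⟨r, hr1, hr⟩ := (h1.and h2).exists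
  have hr0 : 0 ≤ r := by linarith [hr.1]
  have hr1' : (1 - (r:ℂ)) ≠ 0 := one_sub_ne hr.2
  have m1 : MemLp (fun z => (f z - f (r * z)) / (1 - r) - z * deriv f z) (ENNReal.ofReal p) (nu p) := by
    refine ⟨?_, lt_of_le_of_lt hr1 ENNReal.one_lt_top⟩
    apply aesm_of_continuousOn
    apply ContinuousOn.sub
    · exact (cf.sub (cont_dil cf hr0 hr.2.le)).div_const _
    · exact continuousOn_id.mul cdf
  have m2 : MemLp (fun z => z * deriv f z) (ENNReal.ofReal p) (nu p) := by
    apply hg.of_le_mul (c := 1) ((aesm_of_continuousOn continuousOn_id).mul hg.1)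
    filter_upwards [ae_mem_ball p] with z hz
    rw [Pi.mul_apply, norm_mul]
    gcongr
    have : ‖z‖ < 1 := by simpa using hz
    exact this.le
  have m3 : MemLp (fun z => f (r * z)) (ENNReal.ofReal p) (nu p) := by
    -- bounded
    have hcomp : IsCompact (closedBall (0:ℂ) r) := isCompact_closedBall _ _
    obtain ⟨C, hC⟩ := hcomp.exists_bound_of_continuousOn (cf.mono (closedBall_subset_ball hr.2))
    apply MemLp.of_bound (aesm_of_continuousOn (cont_dil cf hr0 hr.2.le)) C
    filter_upwards [ae_mem_ball p] with z hz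
    apply hC
    have : ‖z‖ < 1 := by simpa using hz
    simp only [mem_closedBall, dist_zero_right, norm_mul, Complex.norm_real, Real.norm_of_nonneg hr0]
    nlinarith
  have m4 := (((m1.add m2).const_mul (1 - (r:ℂ))).add m3)
  refine (memLp_congr_ae ?_).mp m4
  apply Eventually.of_forall
  intro z
  simp only [Pi.add_apply]
  field_simp
  ring

/-- the closure lemma -/
lemma exists_poly_close {p : ℝ} (hp : 1 < p) {f h : ℂ → ℂ} (hf : DifferentiableOn ℂ f (ball 0 1)) 
    (hf' : MemLp (deriv f) (ENNReal.ofReal p) (nu p))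
    (hh : DifferentiableOn ℂ h (ball 0 1)) {M : ℝ} (hM : ∀ z ∈ ball (0:ℂ) 1, ‖h z‖ ≤ M)
    (hfh : MemLp (deriv (fun z => f z * h z)) (ENNReal.ofReal p) (nu p)) {ε : ℝ} (hε : 0 < ε) :
    ∃ q : Polynomial ℂ, ‖q.eval 0 * f 0 - f 0 * h 0‖ ≤ ε ∧ 
      eLpNorm (deriv (fun z => q.eval z * f z - f z * h z)) (ENNReal.ofReal p) (nu p) ≤ ENNReal.ofReal ε := by
  have hfin := nu_finite hp.le
  have hP1 : 1 ≤ ENNReal.ofReal p := by 
    rw [← ENNReal.ofReal_one]; exact ENNReal.ofReal_le_ofReal hp.le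
  have cf : ContinuousOn f (ball 0 1) := hf.continuousOn
  have cdf : ContinuousOn (deriv f) (ball 0 1) := (hf.deriv isOpen_ball).continuousOn
  have hfL := memLp_f hp hf hf'
  have h0 := key_tendsto hp hf hf' hh hM hfh
  rw [ENNReal.tendsto_nhds_zero] at h0
  have h1 := h0 (ENNReal.ofReal (ε/2)) (by simpa using hε)
  have h2 : ∀ᶠ r : ℝ in 𝓝[<] 1, r ∈ Ioo (1/2:ℝ) 1 := Ioo_mem_nhdsLT (by norm_num)
  obtain ⟨r, hr1, hr⟩ := (h1.and h2).exists
  have hr0 : 0 < r := by linarith [hr.1]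
  -- h_r analytic on ball 0 (1/r)
  have hHd : DifferentiableOn ℂ (fun z => h (r * z)) (ball 0 (1/r)) := by
    apply hh.comp (by fun_prop)
    intro z hz
    simp only [mem_ball, dist_zero_right, norm_mul, Complex.norm_real, Real.norm_of_nonneg hr0.le] at hz ⊢
    rw [lt_div_iff₀ hr0] at hz
    linarith
  have hR : 1 < 1/r := by rw [lt_div_iff₀ hr0]; linarith [hr.2]
  -- constants
  set A := (eLpNorm f (ENNReal.ofReal p) (nu p)).toReal with hA
  set B := (eLpNorm (deriv f) (ENNReal.ofReal p) (nu p)).toReal with hB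
  have hA0 : 0 ≤ A := ENNReal.toReal_nonneg
  have hB0 : 0 ≤ B := ENNReal.toReal_nonneg
  set δ := ε / 2 / (A + B + ‖f 0‖ + 1) with hδ
  have hden : 0 < A + B + ‖f 0‖ + 1 := by positivity
  have hδ0 : 0 < δ := by positivity
  obtain ⟨q, hq⟩ := exists_poly hR hHd hδ0
  refine ⟨q, ?_, ?_⟩
  · have := (hq 0 (by simp)).1
    simp only [mul_zero] at this
    have e : q.eval 0 * f 0 - f 0 * h 0 = (q.eval 0 - h 0) * f 0 := by ring
    rw [e, norm_mul]
    calc ‖q.eval 0 - h 0‖ * ‖f 0‖ ≤ δ * (A + B + ‖f 0‖ + 1) := by 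
          gcongr
          linarith
      _ = ε/2 := by rw [hδ]; field_simp
      _ ≤ ε := by linarith
  · -- split
    have hdiffq : ∀ z ∈ ball (0:ℂ) 1, DifferentiableAt ℂ (fun w => q.eval w - h (r * w)) z := by
      intro z hz
      have hz1 : z ∈ ball (0:ℂ) (1/r) := ball_subset_ball hR.le hz
      exact q.differentiable.differentiableAt.sub (hHd.differentiableAt (isOpen_ball.mem_nhds hz1))
    have hdf : ∀ z ∈ ball (0:ℂ) 1, DifferentiableAt ℂ f z := fun z hz => 
      hf.differentiableAt (isOpen_ball.mem_nhds hz)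
    have hdh : ∀ z ∈ ball (0:ℂ) 1, DifferentiableAt ℂ h z := fun z hz => 
      hh.differentiableAt (isOpen_ball.mem_nhds hz)
    have hdhr : ∀ z ∈ ball (0:ℂ) 1, DifferentiableAt ℂ (fun w => h (r * w)) z := by
      intro z hz
      have hz1 : z ∈ ball (0:ℂ) (1/r) := ball_subset_ball hR.le hz
      exact hHd.differentiableAt (isOpen_ball.mem_nhds hz1)
    set D := deriv (fun w => q.eval w - h (r * w)) with hD
    have cD : ContinuousOn D (ball 0 1) := by
      have : DifferentiableOn ℂ (fun w => q.eval w - h (r * w)) (ball 0 1) := 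
        fun z hz => (hdiffq z hz).differentiableWithinAt
      exact (this.deriv isOpen_ball).continuousOn
    have cE : ContinuousOn (fun w => q.eval w - h (r * w)) (ball 0 1) := 
      fun z hz => (hdiffq z hz).continuousAt.continuousWithinAt
    have e : deriv (fun z => q.eval z * f z - f z * h z) =ᵐ[nu p] 
        ((fun z => D z * f z) + (fun z => (q.eval z - h (r * z)) * deriv f z)) + 
        (fun z => deriv (fun w => f w * h (r * w)) z - deriv (fun w => f w * h w) z) := by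
      filter_upwards [ae_mem_ball p] with z hz
      have e1 : (fun z => q.eval z * f z - f z * h z) = 
          (fun z => ((q.eval z - h (r * z)) * f z + f z * h (r * z)) - f z * h z) := by
        ext z; ring
      rw [e1]
      have d1 : DifferentiableAt ℂ (fun w => (q.eval w - h (r * w)) * f w) z := 
        (hdiffq z hz).mul (hdf z hz)
      have d2 : DifferentiableAt ℂ (fun w => f w * h (r * w)) z := (hdf z hz).mul (hdhr z hz)
      have d3 : DifferentiableAt ℂ (fun w => f w * h w) z := (hdf z hz).mul (hdh z hz)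
      have d12 : DifferentiableAt ℂ (fun w => (q.eval w - h (r * w)) * f w + f w * h (r * w)) z := 
        d1.add d2
      rw [deriv_fun_sub d12 d3, deriv_fun_add d1 d2, deriv_fun_mul (hdiffq z hz) (hdf z hz)]
      simp only [Pi.add_apply]
      ring
    rw [eLpNorm_congr_ae e]
    have mm1 : AEStronglyMeasurable (fun z => D z * f z) (nu p) := aesm_of_continuousOn (cD.mul cf)
    have mm2 : AEStronglyMeasurable (fun z => (q.eval z - h (r * z)) * deriv f z) (nu p) := 
      aesm_of_continuousOn (cE.mul cdf)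
    have mm3 : AEStronglyMeasurable (fun z => deriv (fun w => f w * h (r * w)) z - deriv (fun w => f w * h w) z) (nu p) := 
      ((measurable_deriv _).sub (measurable_deriv _)).aestronglyMeasurable
    have b1 : eLpNorm (fun z => D z * f z) (ENNReal.ofReal p) (nu p) ≤ ENNReal.ofReal δ * ENNReal.ofReal A := by
      rw [hA, ENNReal.ofReal_toReal hfL.2.ne]
      apply eLpNorm_le_mul_eLpNorm_of_ae_le_mul
      filter_upwards [ae_mem_ball p] with z hz
      rw [norm_mul]
      gcongr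
      exact (hq z hz).2
    have b2 : eLpNorm (fun z => (q.eval z - h (r * z)) * deriv f z) (ENNReal.ofReal p) (nu p) ≤ ENNReal.ofReal δ * ENNReal.ofReal B := by
      rw [hB, ENNReal.ofReal_toReal hf'.2.ne]
      apply eLpNorm_le_mul_eLpNorm_of_ae_le_mul
      filter_upwards [ae_mem_ball p] with z hz
      rw [norm_mul]
      gcongr
      exact (hq z hz).1
    calc _ ≤ (eLpNorm (fun z => D z * f z) (ENNReal.ofReal p) (nu p) + 
              eLpNorm (fun z => (q.eval z - h (r * z)) * deriv f z) (ENNReal.ofReal p) (nu p)) + 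
            eLpNorm (fun z => deriv (fun w => f w * h (r * w)) z - deriv (fun w => f w * h w) z) (ENNReal.ofReal p) (nu p) := by
          refine (eLpNorm_add_le (mm1.add mm2) mm3 hP1).trans ?_
          gcongr
          exact eLpNorm_add_le mm1 mm2 hP1
      _ ≤ (ENNReal.ofReal δ * ENNReal.ofReal A + ENNReal.ofReal δ * ENNReal.ofReal B) + ENNReal.ofReal (ε/2) := by
          gcongr
      _ = ENNReal.ofReal (δ * A + δ * B + ε/2) := by
          rw [← ENNReal.ofReal_mul hδ0.le, ← ENNReal.ofReal_mul hδ0.le, 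
            ← ENNReal.ofReal_add (by positivity) (by positivity), 
            ← ENNReal.ofReal_add (by positivity) (by positivity)]
      _ ≤ ENNReal.ofReal ε := by
          apply ENNReal.ofReal_le_ofReal
          have : δ * (A + B + ‖f 0‖ + 1) = ε/2 := by rw [hδ]; field_simp
          nlinarith [norm_nonneg (f 0), hδ0]

/-- The Herglotz integral -/
noncomputable def FU (u : ℝ → ℝ) (z : ℂ) : ℂ := 
  (1 / (2 * Real.pi)) * ∫ θ in (0:ℝ)..(2 * Real.pi), 
    (Complex.exp (θ * I) + z) / (Complex.exp (θ * I) - z) * (u θ : ℂ)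

lemma norm_exp_sub_ge (θ : ℝ) (z : ℂ) : 1 - ‖z‖ ≤ ‖Complex.exp (θ * I) - z‖ := by
  have := norm_sub_norm_le (Complex.exp (θ * I)) z
  rwa [Complex.norm_exp_ofReal_mul_I] at this

lemma exp_sub_ne {z : ℂ} (hz : z ∈ ball (0:ℂ) 1) (θ : ℝ) : Complex.exp (θ * I) - z ≠ 0 := by
  have h0 : ‖z‖ < 1 := by simpa using hz
  have := norm_exp_sub_ge θ z
  intro h
  rw [h, norm_zero] at this
  linarith

lemma ker_cont {z : ℂ} (hz : z ∈ ball (0:ℂ) 1) : 
    Continuous (fun θ : ℝ => (Complex.exp (θ * I) + z) / (Complex.exp (θ * I) - z)) := by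
  apply Continuous.div (by fun_prop) (by fun_prop)
  intro θ
  exact exp_sub_ne hz θ

lemma ker_int {z : ℂ} (hz : z ∈ ball (0:ℂ) 1) {u : ℝ → ℝ} (hu : IntervalIntegrable u volume 0 (2 * Real.pi)) :
    IntervalIntegrable (fun θ : ℝ => (Complex.exp (θ * I) + z) / (Complex.exp (θ * I) - z) * (u θ : ℂ)) volume 0 (2 * Real.pi) := by
  have h1 : IntervalIntegrable (fun θ => (u θ : ℂ)) volume 0 (2 * Real.pi) := 
    ⟨hu.1.ofReal, hu.2.ofReal⟩
  exact h1.continuousOn_mul (ker_cont hz).continuousOn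

lemma FU_diff {u : ℝ → ℝ} (hu : IntervalIntegrable u volume 0 (2 * Real.pi)) : 
    DifferentiableOn ℂ (FU u) (ball 0 1) := by
  intro z0 hz0
  apply DifferentiableAt.differentiableWithinAt
  have h0 : ‖z0‖ < 1 := by simpa using hz0
  set ε := (1 - ‖z0‖) / 2 with hε
  have hε0 : 0 < ε := by rw [hε]; linarith
  have hsub : ∀ x ∈ ball z0 ε, x ∈ ball (0:ℂ) 1 ∧ ε ≤ 1 - ‖x‖ := by
    intro x hx
    rw [mem_ball, dist_eq_norm] at hx
    have : ‖x‖ ≤ ‖x - z0‖ + ‖z0‖ := by
      calc ‖x‖ = ‖(x - z0) + z0‖ := by ring_nf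
        _ ≤ _ := norm_add_le _ _
    constructor
    · simp only [mem_ball, dist_zero_right]; linarith
    · linarith
  have key := intervalIntegral.hasDerivAt_integral_of_dominated_loc_of_deriv_le (𝕜 := ℂ) 
    (μ := volume) (a := 0) (b := 2 * Real.pi) (x₀ := z0) (s := ball z0 ε)
    (F := fun z θ => (Complex.exp (θ * I) + z) / (Complex.exp (θ * I) - z) * (u θ : ℂ))
    (F' := fun z θ => (2 * Complex.exp (θ * I)) / (Complex.exp (θ * I) - z) ^ 2 * (u θ : ℂ))
    (bound := fun θ => 2 / ε ^ 2 * ‖u θ‖)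
    (ball_mem_nhds z0 hε0) ?_ (ker_int hz0 hu) ?_ ?_ ?_ ?_
  · unfold FU
    exact (key.2.differentiableAt).const_mul _
  · filter_upwards [ball_mem_nhds z0 hε0] with x hx
    exact (ker_int (hsub x hx).1 hu).def'.aestronglyMeasurable
  · have h1 : Continuous (fun θ : ℝ => (2 * Complex.exp (θ * I)) / (Complex.exp (θ * I) - z0) ^ 2) := by
      apply Continuous.div (by fun_prop) (by fun_prop)
      intro θ
      exact pow_ne_zero _ (exp_sub_ne hz0 θ)
    have h2 : IntervalIntegrable (fun θ => (u θ : ℂ)) volume 0 (2 * Real.pi) := 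
      ⟨hu.1.ofReal, hu.2.ofReal⟩
    exact (h2.continuousOn_mul h1.continuousOn).def'.aestronglyMeasurable
  · apply Eventually.of_forall
    intro θ _ x hx
    rw [norm_mul, norm_div, norm_mul, norm_pow, Complex.norm_exp_ofReal_mul_I, Complex.norm_real]
    simp only [Complex.norm_ofNat, mul_one]
    have h1 := norm_exp_sub_ge θ x
    have h2 := (hsub x hx).2
    gcongr
    linarith
  · exact (hu.norm).const_mul _
  · apply Eventually.of_forall
    intro θ _ x hx
    have hne := exp_sub_ne (hsub x hx).1 θ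
    have h1 : HasDerivAt (fun x : ℂ => Complex.exp (θ * I) + x) 1 x := by
      simpa using (hasDerivAt_id x).const_add (Complex.exp (θ * I))
    have h2 : HasDerivAt (fun x : ℂ => Complex.exp (θ * I) - x) (-1) x := by
      simpa using (hasDerivAt_id x).const_sub (Complex.exp (θ * I))
    have h3 := (h1.div h2 hne).mul_const (u θ : ℂ)
    have e : (1 * (Complex.exp (θ * I) - x) - (Complex.exp (θ * I) + x) * (-1)) / (Complex.exp (θ * I) - x) ^ 2 * (u θ : ℂ) = 
        (2 * Complex.exp (θ * I)) / (Complex.exp (θ * I) - x) ^ 2 * (u θ : ℂ) := by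
      congr 2; ring
    rw [e] at h3
    exact h3

lemma FU_add {u v : ℝ → ℝ} (hu : IntervalIntegrable u volume 0 (2 * Real.pi)) 
    (hv : IntervalIntegrable v volume 0 (2 * Real.pi)) {z : ℂ} (hz : z ∈ ball (0:ℂ) 1) : 
    FU (fun θ => u θ + v θ) z = FU u z + FU v z := by
  unfold FU
  rw [← mul_add, ← intervalIntegral.integral_add (ker_int hz hu) (ker_int hz hv)]
  congr 1
  apply intervalIntegral.integral_congr
  intro θ _
  simp only
  push_cast
  ring

lemma FU_const (C : ℝ) {z : ℂ} (hz : z ∈ ball (0:ℂ) 1) : FU (fun _ => C) z = C := by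
  have h1 := circleIntegral.integral_sub_inv_of_mem_ball hz
  rw [circleIntegral] at h1
  have hc : Continuous (fun θ : ℝ => Complex.exp (θ * I) / (Complex.exp (θ * I) - z)) := by
    apply Continuous.div (by fun_prop) (by fun_prop)
    intro θ
    exact exp_sub_ne hz θ
  have h2 : ∫ θ in (0:ℝ)..(2 * Real.pi), Complex.exp (θ * I) / (Complex.exp (θ * I) - z) = 2 * Real.pi := by
    have e : ∫ θ in (0:ℝ)..(2 * Real.pi), deriv (circleMap 0 1) θ • (circleMap 0 1 θ - z)⁻¹ = 
        ∫ θ in (0:ℝ)..(2 * Real.pi), I * (Complex.exp (θ * I) / (Complex.exp (θ * I) - z)) := by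
      apply intervalIntegral.integral_congr
      intro θ _
      simp only [deriv_circleMap, circleMap, smul_eq_mul, Complex.ofReal_one, one_mul, zero_add]
      ring
    rw [e, intervalIntegral.integral_const_mul] at h1
    have : I * (∫ θ in (0:ℝ)..(2 * Real.pi), Complex.exp (θ * I) / (Complex.exp (θ * I) - z)) = I * (2 * Real.pi) := by
      rw [h1]; ring
    exact mul_left_cancel₀ I_ne_zero this
  unfold FU
  have e2 : ∫ θ in (0:ℝ)..(2 * Real.pi), (Complex.exp (θ * I) + z) / (Complex.exp (θ * I) - z) * (C : ℂ) = 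
      ∫ θ in (0:ℝ)..(2 * Real.pi), (2 * C * (Complex.exp (θ * I) / (Complex.exp (θ * I) - z)) - C) := by
    apply intervalIntegral.integral_congr
    intro θ _
    have := exp_sub_ne hz θ
    simp only
    field_simp
    ring
  have hci : IntervalIntegrable (fun θ : ℝ => 2 * (C:ℂ) * (Complex.exp (θ * I) / (Complex.exp (θ * I) - z))) volume 0 (2 * Real.pi) := 
    (continuous_const.mul hc).intervalIntegrable _ _
  rw [e2, intervalIntegral.integral_sub hci intervalIntegrable_const, 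
    intervalIntegral.integral_const_mul, h2, intervalIntegral.integral_const]
  have hpi : (Real.pi : ℂ) ≠ 0 := by exact_mod_cast Real.pi_ne_zero
  simp only [sub_zero, real_smul]
  push_cast
  field_simp
  ring

lemma ker_re_nonneg {z : ℂ} (hz : z ∈ ball (0:ℂ) 1) (θ : ℝ) : 
    0 ≤ ((Complex.exp (θ * I) + z) / (Complex.exp (θ * I) - z)).re := by
  have h0 : ‖z‖ < 1 := by simpa using hz
  rw [Complex.div_re, ← add_div]
  apply div_nonneg _ (Complex.normSq_nonneg _)
  have h1 : Complex.normSq (Complex.exp (θ * I)) = 1 := by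
    rw [Complex.normSq_eq_norm_sq, Complex.norm_exp_ofReal_mul_I]; norm_num
  have h2 : Complex.normSq z < 1 := by
    rw [Complex.normSq_eq_norm_sq]; nlinarith [norm_nonneg z]
  rw [Complex.normSq_apply] at h1 h2
  simp only [Complex.add_re, Complex.sub_re, Complex.add_im, Complex.sub_im]
  nlinarith

lemma FU_re_le {u : ℝ → ℝ} (hu : IntervalIntegrable u volume 0 (2 * Real.pi)) {C : ℝ} 
    (hC : ∀ θ, u θ ≤ C) {z : ℂ} (hz : z ∈ ball (0:ℂ) 1) : (FU u z).re ≤ C := by
  have h1 : (FU (fun _ => C) z).re = C := by rw [FU_const C hz]; simp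
  rw [← h1]
  have hre : ∀ v : ℝ → ℝ, IntervalIntegrable v volume 0 (2 * Real.pi) → (FU v z).re = 
      (1 / (2 * Real.pi)) * ∫ θ in (0:ℝ)..(2 * Real.pi), 
        ((Complex.exp (θ * I) + z) / (Complex.exp (θ * I) - z)).re * v θ := by
    intro v hv
    unfold FU
    have e1 : (1 / (2 * (Real.pi:ℂ))) = ((1 / (2 * Real.pi) : ℝ) : ℂ) := by push_cast; ring
    rw [e1, Complex.re_ofReal_mul]
    congr 1
    have h2 := intervalIntegral.intervalIntegral_re (𝕜 := ℂ) (ker_int hz hv)
    simp only [RCLike.re_to_complex] at h2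
    rw [← h2]
    apply intervalIntegral.integral_congr
    intro θ _
    simp only
    rw [Complex.re_mul_ofReal]
  rw [hre u hu, hre _ intervalIntegrable_const]
  have hkc : Continuous (fun θ : ℝ => ((Complex.exp (θ * I) + z) / (Complex.exp (θ * I) - z)).re) := 
    Complex.continuous_re.comp (ker_cont hz)
  gcongr
  apply intervalIntegral.integral_mono_on (by positivity)
  · exact hu.continuousOn_mul hkc.continuousOn
  · exact (hkc.mul continuous_const).intervalIntegrable _ _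
  · intro θ _
    exact mul_le_mul_of_nonneg_left (hC θ) (ker_re_nonneg hz θ)

lemma FU_zero {u : ℝ → ℝ} : FU u 0 = (((1 / (2 * Real.pi)) * ∫ θ in (0:ℝ)..(2 * Real.pi), u θ : ℝ) : ℂ) := by
  unfold FU
  push_cast
  congr 1
  rw [← intervalIntegral.integral_ofReal]
  apply intervalIntegral.integral_congr
  intro θ _
  simp

lemma parseval_range (Q : Polynomial ℂ) {n : ℕ} (hn : ∀ i, n ≤ i → Q.coeff i = 0) :
    ∑ i ∈ Finset.range n, ‖Q.coeff i‖ ^ 2 = Real.circleAverage (fun z ↦ ‖Q.eval z‖ ^ 2) 0 1 := by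
  rw [← Polynomial.sum_sq_norm_coeff_eq_circleAverage]
  symm
  apply Finset.sum_subset
  · intro i hi
    rw [Polynomial.mem_support_iff] at hi
    rw [Finset.mem_range]
    by_contra h
    exact hi (hn i (not_lt.mp h))
  · intro i _ hi
    rw [Polynomial.notMem_support_iff] at hi
    simp [hi]

lemma circle_int (Q : Polynomial ℂ) {n : ℕ} (hn : ∀ i, n ≤ i → Q.coeff i = 0) (r : ℝ) :
    ∫ θ in (-Real.pi)..Real.pi, ‖Q.eval ((r:ℂ) * Complex.exp (θ * I))‖ ^ 2 = 
      2 * Real.pi * ∑ i ∈ Finset.range n, ‖Q.coeff i‖ ^ 2 * r ^ (2 * i) := by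
  set Qr := Q.comp (Polynomial.C (r:ℂ) * Polynomial.X) with hQr
  have hc : ∀ i, Qr.coeff i = Q.coeff i * (r:ℂ) ^ i := fun i => by
    rw [hQr, Polynomial.comp_C_mul_X_coeff]
  have h1 := parseval_range Qr (n := n) (fun i hi => by rw [hc, hn i hi, zero_mul])
  have h2 := Real.circleAverage_eq_integral_add (f := fun z ↦ ‖Qr.eval z‖ ^ 2) (c := 0) (R := 1) (-Real.pi)
  rw [h1.symm] at h2
  have h3 : ∫ (θ : ℝ) in (0:ℝ)..2 * Real.pi, ‖Qr.eval (circleMap 0 1 (θ + -Real.pi))‖ ^ 2 = 
      ∫ θ in (-Real.pi)..Real.pi, ‖Q.eval ((r:ℂ) * Complex.exp (θ * I))‖ ^ 2 := by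
    rw [intervalIntegral.integral_comp_add_right (fun θ => ‖Qr.eval (circleMap 0 1 θ)‖ ^ 2)]
    rw [show (0:ℝ) + -Real.pi = -Real.pi by ring, show 2 * Real.pi + -Real.pi = Real.pi by ring]
    apply intervalIntegral.integral_congr
    intro θ _
    simp [hQr, circleMap]
  simp only [smul_eq_mul] at h2
  rw [h3] at h2
  have hpi : 0 < 2 * Real.pi := by positivity
  have h4 : ∫ θ in (-Real.pi)..Real.pi, ‖Q.eval ((r:ℂ) * Complex.exp (θ * I))‖ ^ 2 = 
      2 * Real.pi * ∑ i ∈ Finset.range n, ‖Qr.coeff i‖ ^ 2 := by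
    rw [h2, ← mul_assoc, mul_inv_cancel₀ hpi.ne', one_mul]
  rw [h4]
  congr 1
  apply Finset.sum_congr rfl
  intro i _
  rw [hc, norm_mul, norm_pow, Complex.norm_real, mul_pow, ← pow_mul, mul_comm i 2, pow_mul, pow_mul,
    Real.norm_eq_abs, sq_abs]

lemma energy_poly_eq (Q : Polynomial ℂ) {n : ℕ} (hn : ∀ i, n ≤ i → Q.coeff i = 0) :
    ∫⁻ z in ball (0:ℂ) 1, ENNReal.ofReal ((1 - ‖z‖) * ‖Q.eval z‖ ^ 2) = 
      ENNReal.ofReal (2 * Real.pi * ∑ i ∈ Finset.range n, ‖Q.coeff i‖ ^ 2 * (1 / (2 * i + 2) - 1 / (2 * i + 3))) := by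
  rw [← lintegral_indicator measurableSet_ball, ← Complex.lintegral_comp_polarCoord_symm]
  rw [show polarCoord.target = Ioi (0:ℝ) ×ˢ Ioo (-Real.pi) Real.pi from polarCoord_target]
  rw [Measure.volume_eq_prod, setLIntegral_prod]
  · have inner : ∀ r ∈ Ioi (0:ℝ), ∫⁻ θ in Ioo (-Real.pi) Real.pi, ENNReal.ofReal (r, θ).1 • 
        (ball (0:ℂ) 1).indicator (fun z => ENNReal.ofReal ((1 - ‖z‖) * ‖Q.eval z‖ ^ 2)) (Complex.polarCoord.symm (r, θ)) = 
        (Iio (1:ℝ)).indicator (fun r => ENNReal.ofReal (2 * Real.pi * ∑ i ∈ Finset.range n, ‖Q.coeff i‖ ^ 2 * (r ^ (2 * i + 1) - r ^ (2 * i + 2)))) r := by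
      intro r hr
      have hr0 : 0 < r := hr
      have e0 : ∀ θ : ℝ, Complex.polarCoord.symm (r, θ) = (r:ℂ) * Complex.exp (θ * I) := by
        intro θ
        rw [Complex.polarCoord_symm_apply]
        simp only
        rw [Complex.exp_mul_I]
        push_cast
        ring
      have hnorm : ∀ θ : ℝ, ‖(r:ℂ) * Complex.exp (θ * I)‖ = r := by
        intro θ
        rw [norm_mul, Complex.norm_exp_ofReal_mul_I, mul_one, Complex.norm_real, Real.norm_of_nonneg hr0.le]
      simp only [e0, smul_eq_mul]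
      by_cases hr1 : r < 1
      · rw [indicator_of_mem (by exact hr1)]
        have e1 : ∀ θ : ℝ, ENNReal.ofReal r * (ball (0:ℂ) 1).indicator (fun z => ENNReal.ofReal ((1 - ‖z‖) * ‖Q.eval z‖ ^ 2)) ((r:ℂ) * Complex.exp (θ * I)) = 
            ENNReal.ofReal (r * (1 - r) * ‖Q.eval ((r:ℂ) * Complex.exp (θ * I))‖ ^ 2) := by
          intro θ
          rw [indicator_of_mem (by rw [mem_ball, dist_zero_right, hnorm]; exact hr1), hnorm, ← ENNReal.ofReal_mul hr0.le]
          congr 1; ring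
        simp only [e1]
        rw [← ofReal_integral_eq_lintegral_ofReal]
        · congr 1
          rw [integral_const_mul, ← integral_Ioc_eq_integral_Ioo, 
            ← intervalIntegral.integral_of_le (by linarith [Real.pi_pos]), circle_int Q hn r]
          rw [← mul_assoc, mul_comm (r * (1 - r)) (2 * Real.pi), mul_assoc, Finset.mul_sum]
          congr 1
          apply Finset.sum_congr rfl
          intro i _
          ring
        · apply Continuous.integrableOn_Ioc (a := -Real.pi) (b := Real.pi) _ |>.mono_set Ioo_subset_Ioc_self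
          fun_prop
        · apply Eventually.of_forall
          intro θ
          have : 0 ≤ 1 - r := by linarith
          positivity
      · rw [indicator_of_notMem (by exact hr1)]
        have e1 : ∀ θ : ℝ, ENNReal.ofReal r * (ball (0:ℂ) 1).indicator (fun z => ENNReal.ofReal ((1 - ‖z‖) * ‖Q.eval z‖ ^ 2)) ((r:ℂ) * Complex.exp (θ * I)) = 0 := by
          intro θ
          rw [indicator_of_notMem (by simp only [mem_ball, dist_zero_right, hnorm]; exact hr1), mul_zero]
        simp only [e1, lintegral_zero]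
    rw [setLIntegral_congr_fun measurableSet_Ioi inner]
    rw [setLIntegral_indicator measurableSet_Iio]
    rw [show Iio (1:ℝ) ∩ Ioi 0 = Ioo 0 1 by rw [inter_comm]; rfl]
    rw [← ofReal_integral_eq_lintegral_ofReal]
    · congr 1
      rw [← integral_Ioc_eq_integral_Ioo, ← intervalIntegral.integral_of_le zero_le_one]
      rw [intervalIntegral.integral_const_mul]
      congr 1
      rw [intervalIntegral.integral_finsetSum]
      · apply Finset.sum_congr rfl
        intro i _
        rw [intervalIntegral.integral_const_mul, intervalIntegral.integral_sub, integral_pow, integral_pow]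
        · simp only [one_pow, ne_eq, Nat.add_eq_zero_iff, mul_eq_zero, OfNat.ofNat_ne_zero, false_or, one_ne_zero, and_false, not_false_eq_true, zero_pow, sub_zero]
          push_cast
          ring
        · exact (continuous_pow _).intervalIntegrable _ _
        · exact (continuous_pow _).intervalIntegrable _ _
      · intro i _
        apply Continuous.intervalIntegrable
        fun_prop
    · apply Continuous.integrableOn_Ioc (a := 0) (b := 1) _ |>.mono_set Ioo_subset_Ioc_self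
      fun_prop
    · rw [EventuallyLE, ae_restrict_iff' measurableSet_Ioo]
      apply Eventually.of_forall
      intro r hr
      have : ∀ i, 0 ≤ r ^ (2 * i + 1) - r ^ (2 * i + 2) := by
        intro i
        have : r ^ (2 * i + 1) - r ^ (2 * i + 2) = r ^ (2 * i + 1) * (1 - r) := by ring
        rw [this]
        have h1 := hr.1
        have h2 : 0 < 1 - r := by linarith [hr.2]
        positivity
      apply mul_nonneg (by positivity)
      apply Finset.sum_nonneg
      intro i _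
      exact mul_nonneg (by positivity) (this i)
  · simp only [smul_eq_mul]
    apply AEMeasurable.mul
    · fun_prop
    · apply Measurable.aemeasurable
      have h1 : Measurable ((ball (0:ℂ) 1).indicator (fun z => ENNReal.ofReal ((1 - ‖z‖) * ‖Q.eval z‖ ^ 2))) := by
        apply Measurable.indicator _ measurableSet_ball
        have : Continuous (fun z : ℂ => (1 - ‖z‖) * ‖Q.eval z‖ ^ 2) := by fun_prop
        exact this.measurable.ennreal_ofReal
      have h2 : Measurable (fun p : ℝ × ℝ => Complex.polarCoord.symm p) := by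
        have : (fun p : ℝ × ℝ => Complex.polarCoord.symm p) = fun p => (p.1 : ℂ) * (Real.cos p.2 + Real.sin p.2 * I) := by
          ext p
          rw [Complex.polarCoord_symm_apply]
        rw [this]
        fun_prop
      exact h1.comp h2

lemma exists_series {g : ℂ → ℂ} (hg : DifferentiableOn ℂ g (ball 0 1)) : 
    ∃ P : FormalMultilinearSeries ℂ ℂ ℂ, ∀ R : NNReal, 0 < R → R < 1 → 
      HasFPowerSeriesOnBall g P 0 R := by
  have h : ∀ R : NNReal, 0 < R → R < 1 → HasFPowerSeriesOnBall g (cauchyPowerSeries g 0 R) 0 R := by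
    intro R hR hR1
    apply DifferentiableOn.hasFPowerSeriesOnBall _ hR
    exact hg.mono (closedBall_subset_ball (by exact_mod_cast hR1))
  have h2 : (0:NNReal) < 1/2 := by norm_num
  have h3 : (1/2 : NNReal) < 1 := by
    rw [← NNReal.coe_lt_coe]; norm_num
  refine ⟨cauchyPowerSeries g 0 ((1/2 : NNReal) : ℝ), fun R hR hR1 => ?_⟩
  have e := (h R hR hR1).hasFPowerSeriesAt.eq_formalMultilinearSeries (h (1/2) h2 h3).hasFPowerSeriesAt
  rw [← e]
  exact h R hR hR1

lemma psum_coeff (P : FormalMultilinearSeries ℂ ℂ ℂ) (n k : ℕ) : 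
    (psum P n).coeff k = if k < n then P.coeff k else 0 := by
  unfold psum
  rw [Polynomial.finsetSum_coeff]
  simp only [Polynomial.coeff_C_mul, Polynomial.coeff_X_pow, mul_ite, mul_one, mul_zero]
  rw [Finset.sum_ite_eq]
  simp

lemma bessel {g : ℂ → ℂ} (hb : ∀ z ∈ ball (0:ℂ) 1, ‖g z‖ ≤ 1) 
    {P : FormalMultilinearSeries ℂ ℂ ℂ} (hP : ∀ R : NNReal, 0 < R → R < 1 → 
      HasFPowerSeriesOnBall g P 0 R) (N : ℕ) : ∑ k ∈ Finset.range N, ‖P.coeff k‖ ^ 2 ≤ 1 := by
  -- for s < 1
  have key : ∀ s : ℝ, 0 < s → s < 1 → ∑ k ∈ Finset.range N, ‖P.coeff k‖ ^ 2 * s ^ (2 * k) ≤ 1 := by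
    intro s hs hs1
    have key2 : ∀ ε : ℝ, 0 < ε → ∑ k ∈ Finset.range N, ‖P.coeff k‖ ^ 2 * s ^ (2 * k) ≤ (1 + ε) ^ 2 := by
      intro ε hε
      obtain ⟨s', hss', hs'1⟩ := exists_between hs1
      obtain ⟨R, hs'R, hR1⟩ := exists_between hs'1
      have hs'0 : 0 < s' := hs.trans hss'
      have hR0 : 0 < R := hs'0.trans hs'R
      lift s' to NNReal using hs'0.le
      lift R to NNReal using hR0.le
      have hu := (hP R (by exact_mod_cast hR0) (by exact_mod_cast hR1)).tendstoUniformlyOn' (r' := s') (by exact_mod_cast hs'R)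
      rw [Metric.tendstoUniformlyOn_iff] at hu
      obtain ⟨n, hn, hnN⟩ := ((hu ε hε).and (eventually_ge_atTop N)).exists
      have hcoef : ∀ i, n ≤ i → (psum P n).coeff i = 0 := by
        intro i hi
        rw [psum_coeff, if_neg (not_lt.mpr hi)]
      have h1 := circle_int (psum P n) hcoef s
      have h2 : ∫ θ in (-Real.pi)..Real.pi, ‖(psum P n).eval ((s:ℂ) * Complex.exp (θ * I))‖ ^ 2 ≤ 
          ∫ θ in (-Real.pi)..Real.pi, (1 + ε)^2 := by
        apply intervalIntegral.integral_mono_on (by linarith [Real.pi_pos])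
        · apply Continuous.intervalIntegrable
          fun_prop
        · exact intervalIntegrable_const
        · intro θ _
          have hmem : (s:ℂ) * Complex.exp (θ * I) ∈ ball (0:ℂ) s' := by
            rw [mem_ball, dist_zero_right, norm_mul, Complex.norm_exp_ofReal_mul_I, mul_one, 
              Complex.norm_real, Real.norm_of_nonneg hs.le]
            exact hss'
          have h3 := hn _ hmem
          rw [dist_comm, dist_eq_norm, sub_zero, ← psum_eval] at h3
          have h4 := hb _ (ball_subset_ball hs'1.le hmem)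
          have h5 : ‖(psum P n).eval ((s:ℂ) * Complex.exp (θ * I))‖ ≤ 1 + ε := by
            calc _ = ‖((psum P n).eval ((s:ℂ) * Complex.exp (θ * I)) - g ((s:ℂ) * Complex.exp (θ * I))) + g ((s:ℂ) * Complex.exp (θ * I))‖ := by ring_nf
              _ ≤ _ := norm_add_le _ _
              _ ≤ 1 + ε := by linarith
          gcongr
      rw [h1, intervalIntegral.integral_const, smul_eq_mul] at h2
      have hpi : 0 < 2 * Real.pi := by positivity
      have h6 : ∑ i ∈ Finset.range n, ‖(psum P n).coeff i‖ ^ 2 * s ^ (2 * i) ≤ (1 + ε)^2 := by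
        have : Real.pi - -Real.pi = 2 * Real.pi := by ring
        rw [this] at h2
        exact le_of_mul_le_mul_left h2 hpi
      calc ∑ k ∈ Finset.range N, ‖P.coeff k‖ ^ 2 * s ^ (2 * k) 
          ≤ ∑ k ∈ Finset.range n, ‖P.coeff k‖ ^ 2 * s ^ (2 * k) := by
            apply Finset.sum_le_sum_of_subset_of_nonneg
            · exact Finset.range_mono hnN
            · intros; positivity
        _ = ∑ i ∈ Finset.range n, ‖(psum P n).coeff i‖ ^ 2 * s ^ (2 * i) := by
            apply Finset.sum_congr rfl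
            intro k hk
            rw [psum_coeff, if_pos (Finset.mem_range.mp hk)]
        _ ≤ _ := h6
    have hlim : Tendsto (fun ε : ℝ => (1 + ε)^2) (𝓝[>] 0) (𝓝 1) := by
      have : Tendsto (fun ε : ℝ => (1 + ε)^2) (𝓝 0) (𝓝 ((1 + 0)^2)) := 
        Continuous.tendsto (by fun_prop) 0
      simpa using this.mono_left nhdsWithin_le_nhds
    apply ge_of_tendsto hlim
    filter_upwards [self_mem_nhdsWithin] with ε hε using key2 ε hε
  have hlim : Tendsto (fun s : ℝ => ∑ k ∈ Finset.range N, ‖P.coeff k‖ ^ 2 * s ^ (2 * k)) (𝓝[<] 1) 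
      (𝓝 (∑ k ∈ Finset.range N, ‖P.coeff k‖ ^ 2)) := by
    have : Tendsto (fun s : ℝ => ∑ k ∈ Finset.range N, ‖P.coeff k‖ ^ 2 * s ^ (2 * k)) (𝓝 1) 
      (𝓝 (∑ k ∈ Finset.range N, ‖P.coeff k‖ ^ 2 * 1 ^ (2 * k))) := 
      Continuous.tendsto (by fun_prop) 1
    simp only [one_pow, mul_one] at this
    exact this.mono_left nhdsWithin_le_nhds
  apply le_of_tendsto hlim
  filter_upwards [Ioo_mem_nhdsLT (one_pos : (0:ℝ) < 1)] with s hs using key s hs.1 hs.2

lemma energy_bound {g : ℂ → ℂ} (hg : DifferentiableOn ℂ g (ball 0 1)) 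
    (hb : ∀ z ∈ ball (0:ℂ) 1, ‖g z‖ ≤ 1) :
    ∫⁻ z in ball (0:ℂ) 1, ENNReal.ofReal ((1 - ‖z‖) * ‖deriv g z‖ ^ 2) ≤ 
      ENNReal.ofReal (Real.pi / 2 * (1 - ‖g 0‖ ^ 2)) := by
  obtain ⟨P, hP⟩ := exists_series hg
  have hP0 : P.coeff 0 = g 0 := by
    have := (hP (1/2) (by norm_num) (by rw [← NNReal.coe_lt_coe]; norm_num)).coeff_zero (fun _ => 0)
    rw [← this, FormalMultilinearSeries.coeff]
    congr 1
    ext i
    exact i.elim0
  -- polynomials
  set Q : ℕ → Polynomial ℂ := fun n => Polynomial.derivative (psum P (n+1)) with hQ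
  have hQc : ∀ n i, n ≤ i → (Q n).coeff i = 0 := by
    intro n i hi
    rw [hQ]
    simp only
    rw [Polynomial.coeff_derivative, psum_coeff, if_neg (by omega), zero_mul]
  have hQc' : ∀ n i, i < n → (Q n).coeff i = P.coeff (i+1) * (i + 1) := by
    intro n i hi
    rw [hQ]
    simp only
    rw [Polynomial.coeff_derivative, psum_coeff, if_pos (by omega)]
  have hQe : ∀ n, ∫⁻ z in ball (0:ℂ) 1, ENNReal.ofReal ((1 - ‖z‖) * ‖(Q n).eval z‖ ^ 2) ≤ 
      ENNReal.ofReal (Real.pi / 2 * (1 - ‖g 0‖ ^ 2)) := by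
    intro n
    rw [energy_poly_eq (Q n) (hQc n)]
    apply ENNReal.ofReal_le_ofReal
    have hbes := bessel hb hP (n+1)
    rw [Finset.sum_range_succ', hP0] at hbes
    have h1 : ∑ i ∈ Finset.range n, ‖(Q n).coeff i‖ ^ 2 * (1 / (2 * (i:ℝ) + 2) - 1 / (2 * i + 3)) ≤ 
        ∑ i ∈ Finset.range n, ‖P.coeff (i+1)‖ ^ 2 * (1/4) := by
      apply Finset.sum_le_sum
      intro i hi
      rw [hQc' n i (Finset.mem_range.mp hi), norm_mul, mul_pow, mul_assoc]
      gcongr
      have : ‖((i:ℂ) + 1)‖ = i + 1 := by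
        have : ((i:ℂ) + 1) = ((i + 1 : ℕ) : ℂ) := by push_cast; ring
        rw [this, Complex.norm_natCast]; push_cast; ring
      rw [this]
      have h2 : (1 / (2 * (i:ℝ) + 2) - 1 / (2 * i + 3)) = 1 / ((2 * i + 2) * (2 * i + 3)) := by
        field_simp
        ring
      rw [h2, mul_one_div, div_le_div_iff₀ (by positivity) (by norm_num)]
      nlinarith
    calc 2 * Real.pi * ∑ i ∈ Finset.range n, ‖(Q n).coeff i‖ ^ 2 * (1 / (2 * (i:ℝ) + 2) - 1 / (2 * i + 3)) 
        ≤ 2 * Real.pi * ∑ i ∈ Finset.range n, ‖P.coeff (i+1)‖ ^ 2 * (1/4) := by gcongr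
      _ = Real.pi / 2 * ∑ i ∈ Finset.range n, ‖P.coeff (i+1)‖ ^ 2 := by
          rw [← Finset.sum_mul]; ring
      _ ≤ Real.pi / 2 * (1 - ‖g 0‖ ^ 2) := by
          gcongr
          linarith
  -- pointwise convergence
  have hconv : ∀ z ∈ ball (0:ℂ) 1, Tendsto (fun n => (Q n).eval z) atTop (𝓝 (deriv g z)) := by
    intro z hz
    have hz1 : ‖z‖ < 1 := by simpa using hz
    obtain ⟨s, hs, hs1⟩ := exists_between hz1
    obtain ⟨R, hsR, hR1⟩ := exists_between hs1
    have hs0 : 0 < s := lt_of_le_of_lt (norm_nonneg z) hs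
    have hR0 : 0 < R := hs0.trans hsR
    lift s to NNReal using hs0.le
    lift R to NNReal using hR0.le
    have hu := (hP R (by exact_mod_cast hR0) (by exact_mod_cast hR1)).tendstoUniformlyOn' (r' := s) (by exact_mod_cast hsR)
    have hu2 : TendstoUniformlyOn (fun n z => (psum P n).eval z) g atTop (ball 0 s) := by
      refine hu.congr ?_
      apply Eventually.of_forall
      intro n z _
      simp only [sub_zero]
      rw [psum_eval]
    have hu3 := hu2.tendstoLocallyUniformlyOn.deriv (Eventually.of_forall (fun n => (psum P n).differentiable.differentiableOn)) isOpen_ball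
    have hu4 := hu3.tendsto_at (by simpa using hs : z ∈ ball (0:ℂ) s)
    have hu5 := hu4.comp (tendsto_add_atTop_nat 1)
    refine hu5.congr ?_
    intro n
    simp only [Function.comp_apply]
    rw [(psum P (n+1)).deriv]
  calc ∫⁻ z in ball (0:ℂ) 1, ENNReal.ofReal ((1 - ‖z‖) * ‖deriv g z‖ ^ 2) 
      = ∫⁻ z in ball (0:ℂ) 1, liminf (fun n => ENNReal.ofReal ((1 - ‖z‖) * ‖(Q n).eval z‖ ^ 2)) atTop := by
        apply setLIntegral_congr_fun measurableSet_ball
        intro z hz
        symm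
        apply Tendsto.liminf_eq
        apply ENNReal.tendsto_ofReal
        apply Tendsto.const_mul
        exact ((hconv z hz).norm).pow 2
    _ ≤ liminf (fun n => ∫⁻ z in ball (0:ℂ) 1, ENNReal.ofReal ((1 - ‖z‖) * ‖(Q n).eval z‖ ^ 2)) atTop := by
        apply lintegral_liminf_le
        intro n
        have : Continuous (fun z : ℂ => (1 - ‖z‖) * ‖(Q n).eval z‖ ^ 2) := by fun_prop
        exact this.measurable.ennreal_ofReal
    _ ≤ ENNReal.ofReal (Real.pi / 2 * (1 - ‖g 0‖ ^ 2)) := by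
        apply liminf_le_of_frequently_le'
        apply Frequently.of_forall
        exact hQe

lemma energy_p_bound {p : ℝ} (hp : 2 ≤ p) {g : ℂ → ℂ} (hg : DifferentiableOn ℂ g (ball 0 1)) 
    (hb : ∀ z ∈ ball (0:ℂ) 1, ‖g z‖ ≤ 1) :
    ∫⁻ z, ‖deriv g z‖ₑ ^ p ∂(nu p) ≤ ENNReal.ofReal (Real.pi / 2 * (1 - ‖g 0‖ ^ 2)) := by
  refine le_trans ?_ (energy_bound hg hb)
  rw [lintegral_nu]
  apply setLIntegral_mono' measurableSet_ball
  intro z hz
  have hz1 : ‖z‖ < 1 := by simpa using hz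
  have h1z : 0 < 1 - ‖z‖ := by linarith
  have hd : ‖deriv g z‖ * (1 - ‖z‖) ≤ 1 := by
    have key : ∀ r : ℝ, ‖z‖ < r → r < 1 → ‖deriv g z‖ * (1 - r) ≤ 1 := by
      intro r hr hr1
      have := deriv_bound hg hb hr1 hr
      rw [le_div_iff₀ (by linarith)] at this
      exact this
    have hlim : Tendsto (fun r : ℝ => ‖deriv g z‖ * (1 - r)) (𝓝[>] ‖z‖) (𝓝 (‖deriv g z‖ * (1 - ‖z‖))) := by
      have : Tendsto (fun r : ℝ => ‖deriv g z‖ * (1 - r)) (𝓝 ‖z‖) (𝓝 (‖deriv g z‖ * (1 - ‖z‖))) := 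
        Continuous.tendsto (by fun_prop) _
      exact this.mono_left nhdsWithin_le_nhds
    apply le_of_tendsto hlim
    filter_upwards [Ioo_mem_nhdsGT hz1] with r hr using key r hr.1 hr.2
  rw [wt, ← ofReal_norm, ENNReal.ofReal_rpow_of_nonneg (norm_nonneg _) (by linarith), 
    ← ENNReal.ofReal_mul (by positivity)]
  apply ENNReal.ofReal_le_ofReal
  have e1 : (1 - ‖z‖) ^ (p - 1) = (1 - ‖z‖) ^ (p - 2) * (1 - ‖z‖) := by
    rw [show p - 1 = (p - 2) + 1 by ring, Real.rpow_add h1z, Real.rpow_one]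
  rcases eq_or_lt_of_le (norm_nonneg (deriv g z)) with h0 | h0
  · rw [← h0, Real.zero_rpow (by linarith)]
    simp
  have e2 : ‖deriv g z‖ ^ p = ‖deriv g z‖ ^ (p - 2) * ‖deriv g z‖ ^ 2 := by
    rw [show p = (p - 2) + (2:ℕ) by push_cast; ring, Real.rpow_add h0, Real.rpow_natCast]
    congr 2; push_cast; ring
  rw [e1, e2]
  have e3 : (1 - ‖z‖) ^ (p - 2) * (1 - ‖z‖) * (‖deriv g z‖ ^ (p - 2) * ‖deriv g z‖ ^ 2) = 
      (‖deriv g z‖ * (1 - ‖z‖)) ^ (p - 2) * ((1 - ‖z‖) * ‖deriv g z‖ ^ 2) := by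
    rw [Real.mul_rpow h0.le h1z.le]; ring
  rw [e3]
  have h4 : (‖deriv g z‖ * (1 - ‖z‖)) ^ (p - 2) ≤ 1 := 
    Real.rpow_le_one (by positivity) hd (by linarith)
  calc _ ≤ 1 * ((1 - ‖z‖) * ‖deriv g z‖ ^ 2) := by gcongr
    _ = _ := one_mul _

end Pool.Agent.Lib.MP_57350d_an
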